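import Pool.Agent.Q292.TVX.Lower

/-!
Nested explorations: the densities at two levels.
-/

set_option autoImplicit false

namespace Q292.TVY

open H974 Finset Q292.TVX

variable {E : Type*} [DecidableEq E]

theorem det_up {S : Finset E} {ex ex' : Finset E → Finset E}
    (hsub : ∀ F, F ⊆ S → ex F ⊆ ex' F) {φ : Finset E → ℝ} (h : Det S ex φ) : Det S ex' φ := by
  intro F G hF hG hc
  refine h F G hF hG ?_
  have h1 : ex F = ex' F ∩ ex F := (Finset.inter_eq_right.mpr (hsub F hF)).symm
  rw [h1, ← Finset.inter_assoc, ← Finset.inter_assoc, hc]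

theorem det_mul {S : Finset E} {ex : Finset E → Finset E} {f g : Finset E → ℝ}
    (hf' : Det S ex f) (hg : Det S ex g) : Det S ex (fun F => f F * g F) := by
  intro F G hF hG h
  beta_reduce
  rw [hf' F G hF hG h, hg F G hF hG h]

/-- the quotient of the densities at two levels -/
noncomputable def quo (p : E → ℝ) (ex ex' : Finset E → Finset E) (F : Finset E) : ℝ :=
  ∏ e ∈ ex' F \ ex F, 2 * pe p F e

theorem dens_quo (p : E → ℝ) {ex ex' : Finset E → Finset E} {F : Finset E} (h : ex F ⊆ ex' F) :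
    dens p ex' F = dens p ex F * quo p ex ex' F := by
  unfold TVX.dens quo
  rw [mul_comm, Finset.prod_sdiff h]

theorem pe_pos {w : E → ℝ} (hw : ∀ e, 0 < w e ∧ w e < 1) (F : Finset E) (e : E) :
    0 < pe w F e := by
  have := hw e
  unfold pe
  split_ifs <;> linarith

theorem nested {S : Finset E} {ex ex' : Finset E → Finset E} (ht : Tree S ex) (ht' : Tree S ex')
    (hsub : ∀ F, F ⊆ S → ex F ⊆ ex' F) {w : E → ℝ} (hw : ∀ e, 0 < w e ∧ w e < 1)
    {φ : Finset E → ℝ} (hφ : Det S ex φ) :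
    Ex hf S (fun F => φ F * quo w ex ex' F) = Ex hf S φ := by
  have hpos : ∀ F, 0 < dens w ex F := fun F =>
    Finset.prod_pos fun e _ => mul_pos two_pos (pe_pos hw F e)
  have hψ : Det S ex (fun F => φ F / dens w ex F) := by
    intro F G hF hG h
    beta_reduce
    rw [hφ F G hF hG h, det_dens ht w F G hF hG h]
  have h1 := change ht w hψ
  have h2 := change ht' w (det_up hsub hψ)
  have h3 : Ex hf S (fun F => φ F / dens w ex F * dens w ex F) = Ex hf S φ :=
    Ex_congr fun F _ => by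
      have := (hpos F).ne'
      field_simp
  have h4 : Ex hf S (fun F => φ F / dens w ex F * dens w ex' F) =
      Ex hf S (fun F => φ F * quo w ex ex' F) :=
    Ex_congr fun F hF => by
      have := (hpos F).ne'
      rw [dens_quo w (hsub F hF)]
      field_simp
  rw [← h3, ← h4, ← h1, ← h2]

/-- The difference of the densities at two levels. -/
theorem step {S : Finset E} {ex ex' : Finset E → Finset E} (ht : Tree S ex) (ht' : Tree S ex')
    (hsub : ∀ F, F ⊆ S → ex F ⊆ ex' F) {A : Finset E → Prop} (hA : DetP S ex A)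
    (hdone : ∀ F, F ⊆ S → ¬ A F → ex' F = ex F) {p : E → ℝ} {δ : ℝ} (hδ : δ < 1/2)
    (hp : ∀ e, |p e - 1/2| ≤ δ) {n : ℕ} (hn : ∀ F, F ⊆ S → (ex' F).card ≤ n) :
    Ex hf S (fun F => |dens p ex' F - dens p ex F|) ≤
      Pr p S A * Real.sqrt ((1 + 4 * δ ^ 2) ^ n - 1) := by
  have hpp : ∀ e, 0 < p e ∧ p e < 1 := fun e => by
    have := abs_le.1 (hp e)
    constructor <;> linarith [this.1, this.2]
  have hok : Ok p := fun e => ⟨(hpp e).1.le, (hpp e).2.le⟩
  have hP0 : 0 ≤ Pr p S A := Pr_nonneg hok S A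
  set w : E → ℝ := fun e => p e ^ 2 / (p e ^ 2 + (1 - p e) ^ 2) with hw
  have hden : ∀ e, 0 < p e ^ 2 + (1 - p e) ^ 2 := fun e => by
    have := hpp e
    have h1 : 0 < p e ^ 2 := by have := this.1; positivity
    have h2 : 0 ≤ (1 - p e) ^ 2 := sq_nonneg _
    linarith
  have hww : ∀ e, 0 < w e ∧ w e < 1 := fun e => by
    have h0 := hpp e
    have h1 := hden e
    have h2 : 0 < p e ^ 2 := by have := h0.1; positivity
    have h3 : 0 < 1 - p e := by linarith [h0.2]
    have h4 : 0 < (1 - p e) ^ 2 := by positivity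
    constructor
    · exact div_pos h2 h1
    · rw [hw]
      beta_reduce
      rw [div_lt_one h1]
      linarith
  have hD0 : ∀ F, 0 ≤ dens p ex F := dens_nonneg' hok ex
  have hdet : Det S ex (fun F => ind (A F) * dens p ex F) := det_mul hA.det (det_dens ht p)
  have e1 : Ex hf S (fun F => ind (A F) * dens p ex F) = Pr p S A := by
    unfold Pr
    rw [change ht p hA.det]
  have e2 : Ex hf S (fun F => ind (A F) * dens p ex F * quo p ex ex' F) = Pr p S A := by
    rw [nested ht ht' hsub hpp hdet, e1]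
  have e3 : Ex hf S (fun F => ind (A F) * dens p ex F * quo p ex ex' F ^ 2) ≤
      (1 + 4 * δ ^ 2) ^ n * Pr p S A := by
    rw [← e1, ← nested ht ht' hsub hww hdet, ← Ex_mul_left]
    refine Ex_mono hf_ok fun F hF => ?_
    have h0 : 0 ≤ ind (A F) * dens p ex F := mul_nonneg (ind_nonneg _) (hD0 F)
    have h1 : quo p ex ex' F ^ 2 ≤ (1 + 4 * δ ^ 2) ^ n * quo w ex ex' F := by
      unfold quo
      rw [← Finset.prod_pow]
      have h2 : ∏ e ∈ ex' F \ ex F, (2 * pe p F e) ^ 2 =
          (∏ e ∈ ex' F \ ex F, (1 + 4 * (p e - 1/2) ^ 2)) * ∏ e ∈ ex' F \ ex F, 2 * pe w F e := by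
        rw [← Finset.prod_mul_distrib]
        refine Finset.prod_congr rfl fun e _ => ?_
        have h3 := (hden e).ne'
        have h4 : 1 + 4 * (p e - 1/2) ^ 2 = 2 * (p e ^ 2 + (1 - p e) ^ 2) := by ring
        rw [h4]
        unfold pe
        split_ifs
        · simp only [hw]
          field_simp
        · simp only [hw]
          field_simp
          ring
      rw [h2]
      refine mul_le_mul_of_nonneg_right ?_
        (Finset.prod_nonneg fun e _ => (mul_pos two_pos (pe_pos hww F e)).le)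
      have h3 : ∏ e ∈ ex' F \ ex F, (1 + 4 * (p e - 1/2) ^ 2) ≤
          ∏ _e ∈ ex' F \ ex F, (1 + 4 * δ ^ 2) := by
        refine Finset.prod_le_prod (fun e _ => by positivity) fun e _ => ?_
        have h4 : (p e - 1/2) ^ 2 ≤ δ ^ 2 := by
          rw [← sq_abs (p e - 1/2)]
          exact pow_le_pow_left₀ (abs_nonneg _) (hp e) 2
        linarith
      rw [Finset.prod_const] at h3
      refine h3.trans (pow_le_pow_right₀ (by nlinarith [sq_nonneg δ]) ?_)
      exact (Finset.card_le_card Finset.sdiff_subset).trans (hn F hF)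
    calc ind (A F) * dens p ex F * quo p ex ex' F ^ 2
        ≤ ind (A F) * dens p ex F * ((1 + 4 * δ ^ 2) ^ n * quo w ex ex' F) :=
          mul_le_mul_of_nonneg_left h1 h0
      _ = (1 + 4 * δ ^ 2) ^ n * (ind (A F) * dens p ex F * quo w ex ex' F) := by ring
  have e4 : Ex hf S (fun F => ind (A F) * dens p ex F * (quo p ex ex' F - 1) ^ 2) ≤
      ((1 + 4 * δ ^ 2) ^ n - 1) * Pr p S A := by
    have h1 : Ex hf S (fun F => ind (A F) * dens p ex F * (quo p ex ex' F - 1) ^ 2) =
        Ex hf S (fun F => ind (A F) * dens p ex F * quo p ex ex' F ^ 2 -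
          (2 * (ind (A F) * dens p ex F * quo p ex ex' F) - ind (A F) * dens p ex F)) :=
      Ex_congr fun F _ => by ring
    rw [h1, Ex_sub, Ex_sub, Ex_mul_left, e2, e1]
    linarith
  have e5 : Ex hf S (fun F => |dens p ex' F - dens p ex F|) =
      Ex hf S (fun F => (Real.sqrt (ind (A F) * dens p ex F)) *
        (Real.sqrt (ind (A F) * dens p ex F) * |quo p ex ex' F - 1|)) := by
    refine Ex_congr fun F hF => ?_
    rw [← mul_assoc, Real.mul_self_sqrt (mul_nonneg (ind_nonneg _) (hD0 F))]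
    by_cases hAF : A F
    · rw [ind_of hAF, one_mul, dens_quo p (hsub F hF)]
      have : dens p ex F * quo p ex ex' F - dens p ex F =
          dens p ex F * (quo p ex ex' F - 1) := by ring
      rw [this, abs_mul, abs_of_nonneg (hD0 F)]
    · rw [ind_not_of hAF]
      have h1 := hdone F hF hAF
      have h2 : dens p ex' F = dens p ex F := by unfold TVX.dens; rw [h1]
      rw [h2, sub_self, abs_zero, zero_mul, zero_mul]
  have hc := Ex_cs (hf_ok (E := E)) S (fun F => Real.sqrt (ind (A F) * dens p ex F))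
    (fun F => Real.sqrt (ind (A F) * dens p ex F) * |quo p ex ex' F - 1|)
  rw [← e5] at hc
  have e6 : Ex hf S (fun F => Real.sqrt (ind (A F) * dens p ex F) ^ 2) = Pr p S A := by
    rw [← e1]
    exact Ex_congr fun F _ => Real.sq_sqrt (mul_nonneg (ind_nonneg _) (hD0 F))
  have e7 : Ex hf S (fun F => (Real.sqrt (ind (A F) * dens p ex F) * |quo p ex ex' F - 1|) ^ 2) =
      Ex hf S (fun F => ind (A F) * dens p ex F * (quo p ex ex' F - 1) ^ 2) := by
    refine Ex_congr fun F _ => ?_
    rw [mul_pow, Real.sq_sqrt (mul_nonneg (ind_nonneg _) (hD0 F)), sq_abs]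
  rw [e6, e7] at hc
  have hx : 0 ≤ (1 + 4 * δ ^ 2) ^ n - 1 := by
    have := one_le_pow₀ (n := n) (by nlinarith [sq_nonneg δ] : (1:ℝ) ≤ 1 + 4 * δ ^ 2)
    linarith
  have h8 : (Ex hf S (fun F => |dens p ex' F - dens p ex F|)) ^ 2 ≤
      (Pr p S A * Real.sqrt ((1 + 4 * δ ^ 2) ^ n - 1)) ^ 2 := by
    rw [mul_pow, Real.sq_sqrt hx]
    refine hc.trans ?_
    have := mul_le_mul_of_nonneg_left e4 hP0
    linarith
  refine (pow_le_pow_iff_left₀ ?_ (by positivity) two_ne_zero).1 h8
  exact Ex_nonneg hf_ok fun _ _ => abs_nonneg _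

/-- A family of explorations with at most `N` steps; `L K` means that the exploration is not
finished after `K` steps. -/
structure Fam (N : ℕ) (S : Finset E) (ex : ℕ → Finset E → Finset E)
    (L : ℕ → Finset E → Prop) : Prop where
  tree : ∀ K, K ≤ N → Tree S (ex K)
  det : ∀ K, K ≤ N → DetP S (ex K) (L K)
  mono : ∀ K K' F, K ≤ K' → K' ≤ N → F ⊆ S → ex K F ⊆ ex K' F
  anti : ∀ K K' F, K ≤ K' → K' ≤ N → F ⊆ S → L K' F → L K F
  done : ∀ K K' F, K ≤ K' → K' ≤ N → F ⊆ S → ¬ L K F → ex K' F = ex K F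
  card : ∀ K F, K ≤ N → F ⊆ S → (ex K F).card ≤ K
  low : ∀ K F, K ≤ N → F ⊆ S → L K F → K / 8 ≤ (ex K F).card

/-- the distance of the density at the level `K` from `1` -/
noncomputable def dst (p : E → ℝ) (S : Finset E) (ex : Finset E → Finset E) : ℝ :=
  Ex hf S (fun F => |dens p ex F - 1|)

theorem dst_nonneg (p : E → ℝ) (S : Finset E) (ex : Finset E → Finset E) : 0 ≤ dst p S ex :=
  Ex_nonneg hf_ok fun _ _ => abs_nonneg _

theorem pr_le_dst {S : Finset E} {ex : Finset E → Finset E} (ht : Tree S ex) (p : E → ℝ)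
    {A : Finset E → Prop} (hA : DetP S ex A) : |Pr p S A - Pr hf S A| ≤ dst p S ex := by
  have h1 : Pr p S A - Pr hf S A = Ex hf S (fun F => ind (A F) * (dens p ex F - 1)) := by
    unfold Pr
    rw [change ht p hA.det, ← Ex_sub]
    exact Ex_congr fun F _ => by ring
  rw [h1, abs_le]
  unfold dst
  constructor
  · rw [← neg_one_mul, ← Ex_mul_left]
    refine Ex_mono hf_ok fun F _ => ?_
    have h2 := neg_abs_le (dens p ex F - 1)
    have h3 := ind_nonneg (A F)
    have h4 := ind_le_one (A F)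
    have h5 := abs_nonneg (dens p ex F - 1)
    nlinarith
  · refine Ex_mono hf_ok fun F _ => ?_
    have h2 := le_abs_self (dens p ex F - 1)
    have h3 := ind_nonneg (A F)
    have h4 := ind_le_one (A F)
    have h5 := abs_nonneg (dens p ex F - 1)
    nlinarith

theorem dst_step {S : Finset E} {ex ex' : Finset E → Finset E} (ht : Tree S ex)
    (ht' : Tree S ex')
    (hsub : ∀ F, F ⊆ S → ex F ⊆ ex' F) {A : Finset E → Prop} (hA : DetP S ex A)
    (hdone : ∀ F, F ⊆ S → ¬ A F → ex' F = ex F) {p : E → ℝ} {δ : ℝ} (hδ0 : 0 ≤ δ)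
    (hδ : δ < 1/2) (hp : ∀ e, |p e - 1/2| ≤ δ) {n : ℕ} (hn : ∀ F, F ⊆ S → (ex' F).card ≤ n)
    (hx : 4 * δ ^ 2 * n ≤ 1) :
    dst p S ex' ≤ dst p S ex + (Pr hf S A + dst p S ex) * (3 * (δ * Real.sqrt n)) := by
  have h1 := step ht ht' hsub hA hdone hδ hp hn
  have h2 : dst p S ex' ≤ dst p S ex + Ex hf S (fun F => |dens p ex' F - dens p ex F|) := by
    unfold dst
    rw [← Ex_add]
    refine Ex_mono hf_ok fun F _ => ?_
    have := abs_add_le (dens p ex F - 1) (dens p ex' F - dens p ex F)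
    have h3 : dens p ex F - 1 + (dens p ex' F - dens p ex F) = dens p ex' F - 1 := by ring
    rwa [h3] at this
  have h3 := (abs_le.1 (pr_le_dst ht p hA)).2
  have h4 : Real.sqrt ((1 + 4 * δ ^ 2) ^ n - 1) ≤ 3 * (δ * Real.sqrt n) := by
    apply Real.sqrt_le_iff.mpr
    refine ⟨by positivity, ?_⟩
    have h5 : (1 + 4 * δ ^ 2) ^ n ≤ Real.exp (4 * δ ^ 2 * n) := by
      have := Real.add_one_le_exp (4 * δ ^ 2)
      have h6 : Real.exp (4 * δ ^ 2 * n) = Real.exp (4 * δ ^ 2) ^ n := by
        rw [← Real.exp_nat_mul]; congr 1; ring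
      rw [h6]
      exact pow_le_pow_left₀ (by positivity) (by linarith) n
    have h6 : Real.exp (4 * δ ^ 2 * n) ≤ 1 + 2 * (4 * δ ^ 2 * n) := by
      have h7 := Real.abs_exp_sub_one_le (x := 4 * δ ^ 2 * n)
        (by rw [abs_of_nonneg (by positivity)]; exact hx)
      rw [abs_of_nonneg (by positivity : (0:ℝ) ≤ 4 * δ ^ 2 * n)] at h7
      have := (abs_le.1 h7).2
      linarith
    have h7 : (3 * (δ * Real.sqrt n)) ^ 2 = 9 * (δ ^ 2 * n) := by
      rw [mul_pow, mul_pow, Real.sq_sqrt (Nat.cast_nonneg n)]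
      ring
    rw [h7]
    have : 0 ≤ δ ^ 2 * n := by positivity
    linarith
  have hP0 : 0 ≤ Pr p S A := by
    refine Pr_nonneg (fun e => ?_) S A
    have := abs_le.1 (hp e)
    constructor <;> linarith [this.1, this.2]
  refine h2.trans ?_
  have h5 : Ex hf S (fun F => |dens p ex' F - dens p ex F|) ≤
      (Pr hf S A + dst p S ex) * (3 * (δ * Real.sqrt n)) := by
    refine h1.trans ?_
    refine mul_le_mul ?_ h4 (Real.sqrt_nonneg _) ?_
    · linarith
    · linarith
  linarith

end Q292.TVY
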