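import Pool.Agent.Q292.TVY.Dec
import Pool.Agent.H974R2.Infinite

/-!
The exploration of the open cluster of the origin of the square lattice.
-/

set_option autoImplicit false

namespace Q292.TVY

open H974 Finset Q292.TVX MeasureTheory ProbabilityTheory

/-- the graph of a finite set of edges -/
def gr (T : Finset sqLattice.edgeSet) : SimpleGraph (ℤ × ℤ) :=
  SimpleGraph.fromEdgeSet {e | ∃ h : e ∈ sqLattice.edgeSet, (⟨e, h⟩ : sqLattice.edgeSet) ∈ T}

/-- its cluster of the origin -/
def cl (T : Finset sqLattice.edgeSet) : Set (ℤ × ℤ) := {v | (gr T).Reachable (0, 0) v}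

/-- the edges with an end in `C` -/
def inc (C : Set (ℤ × ℤ)) : Set sqLattice.edgeSet := {e | ∃ v ∈ C, v ∈ (e : Sym2 (ℤ × ℤ))}

open Classical in
/-- the rule -/
noncomputable def cnx (R T : Finset sqLattice.edgeSet) : Option sqLattice.edgeSet :=
  if h : ∃ e, e ∉ R ∧ e ∈ inc (cl T) then some h.choose else none

theorem cnx_some {R T : Finset sqLattice.edgeSet} {e : sqLattice.edgeSet} (h : cnx R T = some e) :
    e ∉ R ∧ e ∈ inc (cl T) := by
  unfold cnx at h
  split_ifs at h with h1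
  rw [Option.some.injEq] at h
  rw [← h]
  exact h1.choose_spec

theorem cnx_none {R T : Finset sqLattice.edgeSet} (h : cnx R T = none) :
    ∀ e, e ∈ inc (cl T) → e ∈ R := by
  unfold cnx at h
  split_ifs at h with h1
  intro e he
  by_contra hcon
  exact h1 ⟨e, hcon, he⟩

theorem cl_sub (R : Finset sqLattice.edgeSet) (ω : sqLattice.edgeSet → Bool) :
    cl (cutS R ω) ⊆ cluster0 ω := by
  intro v hv
  refine SimpleGraph.Reachable.mono (SimpleGraph.fromEdgeSet_mono ?_) hv
  rintro e ⟨h, he⟩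
  exact ⟨h, (Finset.mem_filter.mp he).2⟩

theorem inc_mono {C D : Set (ℤ × ℤ)} (h : C ⊆ D) : inc C ⊆ inc D := by
  rintro e ⟨v, hv, hve⟩
  exact ⟨v, h hv, hve⟩

theorem dex_sub (K : ℕ) (ω : sqLattice.edgeSet → Bool) :
    ∀ e ∈ dex cnx K ω, e ∈ inc (cluster0 ω) := by
  induction K with
  | zero => intro e he; exact absurd he (Finset.notMem_empty _)
  | succ K ih =>
    intro e he
    cases h : cnx (dex cnx K ω) (cutS (dex cnx K ω) ω) with
    | none =>
      rw [dex_none h] at he
      exact ih e he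
    | some e' =>
      rw [dex_some h, Finset.mem_insert] at he
      rcases he with rfl | he
      · exact inc_mono (cl_sub _ _) (cnx_some h).2
      · exact ih e he

theorem cluster_sub {R : Finset sqLattice.edgeSet} {ω : sqLattice.edgeSet → Bool}
    (h : cnx R (cutS R ω) = none) : cluster0 ω ⊆ cl (cutS R ω) := by
  have key : ∀ u v : ℤ × ℤ, (openGraph ω).Walk u v → u ∈ cl (cutS R ω) → v ∈ cl (cutS R ω) := by
    intro u v p
    induction p with
    | nil => exact id
    | @cons u w v hadj p ih =>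
      intro hu
      apply ih
      have h1 := (SimpleGraph.fromEdgeSet_adj _).mp hadj
      obtain ⟨⟨h2, h3⟩, h4⟩ := h1
      have h5 : (⟨s(u, w), h2⟩ : sqLattice.edgeSet) ∈ R :=
        cnx_none h _ ⟨u, hu, Sym2.mem_mk_left u w⟩
      have h6 : (⟨s(u, w), h2⟩ : sqLattice.edgeSet) ∈ cutS R ω :=
        Finset.mem_filter.mpr ⟨h5, h3⟩
      have h7 : (gr (cutS R ω)).Adj u w :=
        (SimpleGraph.fromEdgeSet_adj _).mpr ⟨⟨h2, h6⟩, h4⟩
      exact hu.trans h7.reachable
  rintro v ⟨p⟩
  exact key _ _ p (SimpleGraph.Reachable.refl _)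

theorem hnx : ∀ (R T : Finset sqLattice.edgeSet) e, cnx R T = some e → e ∉ R :=
  fun _ _ _ h => (cnx_some h).1

/-- When the exploration is finished the cluster is known. -/
theorem done_iff {K : ℕ} {ω : sqLattice.edgeSet → Bool} (h : ¬ dL cnx K ω) :
    cluster0 ω = cl (cutS (dex cnx K ω) ω) ∧ ∀ e, e ∈ inc (cluster0 ω) ↔ e ∈ dex cnx K ω := by
  have h1 := dex_done hnx K ω h
  have h2 : cluster0 ω = cl (cutS (dex cnx K ω) ω) :=
    Set.Subset.antisymm (cluster_sub h1) (cl_sub _ _)
  refine ⟨h2, fun e => ⟨fun he => ?_, fun he => dex_sub K ω e he⟩⟩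
  rw [h2] at he
  exact cnx_none h1 e he

theorem dL_iff (K : ℕ) (ω : sqLattice.edgeSet → Bool) :
    dL cnx K ω ↔ (K : ℕ∞) ≤ (inc (cluster0 ω)).encard := by
  constructor
  · intro h
    have h1 : ((dex cnx K ω : Finset _) : Set sqLattice.edgeSet) ⊆ inc (cluster0 ω) :=
      fun e he => dex_sub K ω e he
    refine le_trans ?_ (Set.encard_le_encard h1)
    rw [Set.encard_coe_eq_coe_finsetCard]
    exact_mod_cast h
  · intro h
    by_contra hcon
    have h1 : inc (cluster0 ω) = ((dex cnx K ω : Finset _) : Set sqLattice.edgeSet) := by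
      ext e
      exact (done_iff hcon).2 e
    rw [h1, Set.encard_coe_eq_coe_finsetCard] at h
    apply hcon
    unfold dL
    exact_mod_cast h

/-- The open cluster of the origin: its vertices and the open edges at them. -/
def cgr (ω : sqLattice.edgeSet → Bool) : Set (ℤ × ℤ) × Set sqLattice.edgeSet :=
  (cluster0 ω, {e | ω e = true ∧ e ∈ inc (cluster0 ω)})

theorem of_cgr {ω ω' : sqLattice.edgeSet → Bool} (h : cgr ω' = cgr ω) {e : sqLattice.edgeSet}
    (he : e ∈ inc (cluster0 ω)) : ω' e = ω e := by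
  have h1 : cluster0 ω' = cluster0 ω := congrArg Prod.fst h
  have h2 : e ∈ (cgr ω').2 ↔ e ∈ (cgr ω).2 := by rw [h]
  have h3 : (ω' e = true ∧ e ∈ inc (cluster0 ω')) ↔ (ω e = true ∧ e ∈ inc (cluster0 ω)) := h2
  rw [h1] at h3
  simp only [he, and_true] at h3
  exact Bool.eq_iff_iff.mpr h3

/-- an edge at the origin -/
def e00 : sqLattice.edgeSet := toE (0, 0, true)

theorem e00_mem (ω : sqLattice.edgeSet → Bool) : e00 ∈ inc (cluster0 ω) :=
  ⟨(0, 0), SimpleGraph.Reachable.refl _, Sym2.mem_mk_left _ _⟩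

theorem clu_expl : Expl (dex cnx) (dL cnx) cgr e00 := by
  refine dec_expl hnx ?_ ?_ ?_
  · intro K ω ω' hn h
    have h1 := dex_stab (nx := cnx) K ω ω' h
    have hn' : ¬ dL cnx K ω' := by
      unfold dL at *
      rwa [h1]
    obtain ⟨a1, a2⟩ := done_iff hn
    obtain ⟨b1, b2⟩ := done_iff hn'
    have h2 : cluster0 ω' = cluster0 ω := by
      rw [a1, b1, h1, cutS_congr h]
    unfold cgr
    rw [h2]
    congr 1
    ext e
    simp only [Set.mem_ofPred_eq]
    constructor
    · rintro ⟨h3, h4⟩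
      exact ⟨by rw [← h e ((a2 e).mp h4)]; exact h3, h4⟩
    · rintro ⟨h3, h4⟩
      exact ⟨by rw [h e ((a2 e).mp h4)]; exact h3, h4⟩
  · intro K ω ω' hL h
    have h1 : cluster0 ω' = cluster0 ω := congrArg Prod.fst h
    refine ⟨?_, fun e he => of_cgr h (dex_sub K ω e he)⟩
    rw [dL_iff] at hL ⊢
    rwa [h1]
  · intro ω ω' h
    exact of_cgr h (e00_mem ω)

/-! ### the number of the edges at a cluster -/

theorem encard_le_inc (C : Set (ℤ × ℤ)) : C.encard ≤ (inc C).encard := by
  have h1 : (fun v : ℤ × ℤ => toE (v.1, v.2, true)) '' C ⊆ inc C := by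
    rintro _ ⟨v, hv, rfl⟩
    exact ⟨v, hv, Sym2.mem_mk_left _ _⟩
  have h2 : Function.Injective (fun v : ℤ × ℤ => toE (v.1, v.2, true)) := by
    rintro ⟨x, y⟩ ⟨x', y'⟩ h
    have := toE_inj h
    simpa using this
  rw [← h2.encard_image C]
  exact Set.encard_le_encard h1

theorem inc_le (C : Set (ℤ × ℤ)) : (inc C).encard ≤ 4 * C.encard := by
  have h1 : inc C ⊆ (((fun v : ℤ × ℤ => toE (v.1, v.2, true)) '' C ∪
      (fun v : ℤ × ℤ => toE (v.1 - 1, v.2, true)) '' C) ∪
      (fun v : ℤ × ℤ => toE (v.1, v.2, false)) '' C) ∪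
      (fun v : ℤ × ℤ => toE (v.1, v.2 - 1, false)) '' C := by
    rintro ⟨e, he⟩ ⟨v, hv, hve⟩
    induction e using Sym2.ind with
    | _ a b =>
      obtain ⟨⟨x, y, d⟩, h2⟩ := adj_edge (u := a) (v := b) he
      have h3 : (⟨s(a, b), he⟩ : sqLattice.edgeSet) = toE (x, y, d) := by
        apply Subtype.ext
        show s(a, b) = s(src (x, y, d), tgt (x, y, d))
        rcases h2 with ⟨h2, h4⟩ | ⟨h2, h4⟩
        · rw [h2, h4]
        · rw [h2, h4, Sym2.eq_swap]
      rw [h3]
      have h5 : v = src (x, y, d) ∨ v = tgt (x, y, d) := by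
        have h6 : v ∈ s(a, b) := hve
        rw [Sym2.mem_iff] at h6
        rcases h2 with ⟨h2, h4⟩ | ⟨h2, h4⟩
        · rw [h2, h4]; exact h6
        · rw [h2, h4]; exact h6.symm
      cases d
      · rcases h5 with h5 | h5
        · left; right
          exact ⟨v, hv, by rw [h5]; rfl⟩
        · right
          refine ⟨v, hv, ?_⟩
          rw [h5]
          simp [tgt_false]
      · rcases h5 with h5 | h5
        · left; left; left
          exact ⟨v, hv, by rw [h5]; rfl⟩
        · left; left; right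
          refine ⟨v, hv, ?_⟩
          rw [h5]
          simp [tgt_true]
  refine (Set.encard_le_encard h1).trans ?_
  refine (Set.encard_union_le _ _).trans ?_
  have e1 : ((4 : ℕ∞)) * C.encard = ((C.encard + C.encard) + C.encard) + C.encard := by ring
  rw [e1]
  refine add_le_add ((Set.encard_union_le _ _).trans (add_le_add
    ((Set.encard_union_le _ _).trans (add_le_add ?_ ?_)) ?_)) ?_ <;>
  exact Set.encard_image_le _ _

theorem inc_tail {K : ℕ} {C : Set (ℤ × ℤ)} (h : (K : ℕ∞) ≤ (inc C).encard) :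
    (((K + 3) / 4 : ℕ) : ℕ∞) ≤ C.encard := by
  have h1 := h.trans (inc_le C)
  rcases eq_or_ne C.encard ⊤ with h2 | h2
  · rw [h2]; exact le_top
  · obtain ⟨m, hm⟩ := ENat.ne_top_iff_exists.mp h2
    rw [← hm] at h1 ⊢
    have h3 : K ≤ 4 * m := by exact_mod_cast h1
    have h4 : (K + 3) / 4 ≤ m := by omega
    exact_mod_cast h4

end Q292.TVY
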