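import Pool.Agent.Q292.TVY.Clu
import Pool.Agent.H160R2.CV.Sharp
import Pool.Agent.H160R2.SA.Arm

/-!
The total variation distance of the laws of the open cluster of the origin.
-/

set_option autoImplicit false

namespace Q292.TVY

open H974 Finset Q292.TVX MeasureTheory ProbabilityTheory

theorem clu_tail : ∃ c C : ℝ, 0 < c ∧ 0 < C ∧ ∀ K : ℕ, 1 ≤ K →
    c * (K : ℝ) ^ (-(5 / 91 : ℝ)) ≤ (law fun _ => half).real {ω | dL cnx K ω} ∧
    (law fun _ => half).real {ω | dL cnx K ω} ≤ C * (K : ℝ) ^ (-(5 / 91 : ℝ)) := by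
  obtain ⟨c, C, hc, hC, h⟩ := Pool.Agent.H160R2.CV.sharp_vol Pool.Agent.H160R2.SA.arSharp
  refine ⟨c, C * 4 ^ (5/91 : ℝ), hc, by positivity, fun K hK => ?_⟩
  have hP := law_prob (fun _ : sqLattice.edgeSet => half)
  have hP' : IsProbabilityMeasure (bondLaw hlf) := hP
  have hl : (law fun _ : sqLattice.edgeSet => half) = bondLaw hlf := rfl
  rw [hl]
  have hK0 : (0:ℝ) < K := by exact_mod_cast hK
  constructor
  · refine (h K hK).1.trans (measureReal_mono fun ω hω => ?_)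
    show dL cnx K ω
    rw [dL_iff]
    exact le_trans hω (encard_le_inc _)
  · have h1 := (h ((K + 3) / 4) (by omega)).2
    refine le_trans (measureReal_mono fun ω hω => ?_) (h1.trans ?_)
    · exact inc_tail ((dL_iff K ω).mp hω)
    · rw [mul_assoc]
      refine mul_le_mul_of_nonneg_left ?_ hC.le
      have h2 : (K:ℝ) / 4 ≤ (((K + 3) / 4 : ℕ) : ℝ) := by
        rw [div_le_iff₀ (by norm_num)]
        have : K ≤ (K + 3) / 4 * 4 := by omega
        exact_mod_cast this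
      refine (Real.rpow_le_rpow_of_nonpos (by positivity) h2 (by norm_num)).trans (le_of_eq ?_)
      rw [Real.div_rpow hK0.le (by norm_num), Real.rpow_neg (by norm_num : (0:ℝ) ≤ 4)]
      field_simp

/-- observables of the cluster -/
abbrev YC := Set (ℤ × ℤ) × Set sqLattice.edgeSet

theorem clu_upper : ∃ C' : ℝ, 0 < C' ∧ ∀ (δ : ℝ)
      (p : sqLattice.edgeSet → unitInterval), (∀ e, |(p e : ℝ) - 1/2| ≤ δ) →
        ∀ B : Set YC,
        |(law p).real {ω | cgr ω ∈ B} - (law fun _ => half).real {ω | cgr ω ∈ B}| ≤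
          C' * δ ^ (2 * (5/91) : ℝ) := by
  obtain ⟨c, C, hc, hC, h2⟩ := clu_tail
  obtain ⟨C', hC', h⟩ := main_upper (E := sqLattice.edgeSet) (Y := YC) (a := 5/91)
    (by norm_num) (by norm_num) hC
  exact ⟨C', hC', h (dex cnx) (dL cnx) cgr e00 clu_expl (fun K hK => (h2 K hK).2)⟩

theorem clu_lower {A : ℝ} (hA : 1 ≤ A) : ∃ c' : ℝ, 0 < c' ∧ ∀ (δ : ℝ)
      (p : sqLattice.edgeSet → unitInterval),
        (∀ e, δ / A ≤ |(p e : ℝ) - 1/2| ∧ |(p e : ℝ) - 1/2| ≤ δ) →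
        ∃ B : Set YC, MeasurableSet {ω | cgr ω ∈ B} ∧ c' * δ ^ (2 * (5/91) : ℝ) ≤
        |(law p).real {ω | cgr ω ∈ B} - (law fun _ => half).real {ω | cgr ω ∈ B}| := by
  obtain ⟨c, C, hc, hC, h2⟩ := clu_tail
  obtain ⟨c', hc', h⟩ := main_lower (E := sqLattice.edgeSet) (Y := YC) (a := 5/91)
    (by norm_num) (by norm_num) hC hc hA
  exact ⟨c', hc', h (dex cnx) (dL cnx) cgr e00 clu_expl (fun K hK => (h2 K hK).2)
    (fun K hK => (h2 K hK).1)⟩

end Q292.TVY
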