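import Pool.Agent.Q292.TVY.Main

/-!
Explorations given by a rule which chooses the next element.
-/

set_option autoImplicit false

namespace Q292.TVY

open H974 Finset Q292.TVX MeasureTheory ProbabilityTheory

variable {E : Type*} [DecidableEq E]

/-- The elements examined in `K` steps: `nx R T` is the next element if `R` is the set of the
examined elements and `T` the set of those which are open. -/
noncomputable def dex (nx : Finset E → Finset E → Option E) : ℕ → (E → Bool) → Finset E
  | 0, _ => ∅
  | K + 1, ω => (nx (dex nx K ω) (cutS (dex nx K ω) ω)).elim (dex nx K ω)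
      (fun e => insert e (dex nx K ω))

/-- the exploration is not finished after `K` steps -/
def dL (nx : Finset E → Finset E → Option E) (K : ℕ) (ω : E → Bool) : Prop :=
  K ≤ (dex nx K ω).card

section

variable {nx : Finset E → Finset E → Option E}

omit [DecidableEq E] in
theorem cutS_congr {R : Finset E} {ω ω' : E → Bool} (h : ∀ e ∈ R, ω' e = ω e) :
    cutS R ω' = cutS R ω := by
  unfold cutS
  exact Finset.filter_congr fun e he => by rw [h e he]

theorem dex_none {K : ℕ} {ω : E → Bool} (h : nx (dex nx K ω) (cutS (dex nx K ω) ω) = none) :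
    dex nx (K+1) ω = dex nx K ω := by
  conv_lhs => unfold dex
  rw [h]
  rfl

theorem dex_some {K : ℕ} {ω : E → Bool} {e : E}
    (h : nx (dex nx K ω) (cutS (dex nx K ω) ω) = some e) :
    dex nx (K+1) ω = insert e (dex nx K ω) := by
  conv_lhs => unfold dex
  rw [h]
  rfl

theorem dex_mono (K : ℕ) (ω : E → Bool) : dex nx K ω ⊆ dex nx (K+1) ω := by
  cases h : nx (dex nx K ω) (cutS (dex nx K ω) ω) with
  | none => rw [dex_none h]
  | some e => rw [dex_some h]; exact Finset.subset_insert _ _

theorem dex_stab (K : ℕ) (ω ω' : E → Bool) (h : ∀ e ∈ dex nx K ω, ω' e = ω e) :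
    dex nx K ω' = dex nx K ω := by
  induction K with
  | zero => rfl
  | succ K ih =>
    have h1 : ∀ e ∈ dex nx K ω, ω' e = ω e := fun e he => h e (dex_mono K ω he)
    have h2 := ih h1
    have h3 := cutS_congr h1
    cases h4 : nx (dex nx K ω) (cutS (dex nx K ω) ω) with
    | none =>
      rw [dex_none h4, dex_none (by rw [h2, h3, h4]), h2]
    | some e =>
      rw [dex_some h4, dex_some (by rw [h2, h3, h4]), h2]

theorem dex_card (K : ℕ) (ω : E → Bool) : (dex nx K ω).card ≤ K := by
  induction K with
  | zero => exact le_rfl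
  | succ K ih =>
    cases h : nx (dex nx K ω) (cutS (dex nx K ω) ω) with
    | none => rw [dex_none h]; omega
    | some e =>
      rw [dex_some h]
      have := Finset.card_insert_le e (dex nx K ω)
      omega

theorem dL_anti (K : ℕ) (ω : E → Bool) (h : dL nx (K+1) ω) : dL nx K ω := by
  unfold dL at *
  cases h1 : nx (dex nx K ω) (cutS (dex nx K ω) ω) with
  | none => rw [dex_none h1] at h; omega
  | some e =>
    rw [dex_some h1] at h
    have := Finset.card_insert_le e (dex nx K ω)
    omega

/-- After the exploration is finished the rule gives nothing. -/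
theorem dex_done (hnx : ∀ R T e, nx R T = some e → e ∉ R) (K : ℕ) (ω : E → Bool)
    (h : ¬ dL nx K ω) : nx (dex nx K ω) (cutS (dex nx K ω) ω) = none := by
  induction K with
  | zero => exact absurd (Nat.zero_le _) h
  | succ K ih =>
    cases h1 : nx (dex nx K ω) (cutS (dex nx K ω) ω) with
    | none => rw [dex_none h1, h1]
    | some e =>
      exfalso
      have h2 : dL nx K ω := by
        by_contra hcon
        rw [ih hcon] at h1
        exact absurd h1 (by simp)
      apply h
      unfold dL at *
      rw [dex_some h1, Finset.card_insert_of_notMem (hnx _ _ _ h1)]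
      omega

theorem dex_finite (K : ℕ) : (Set.range (dex nx K)).Finite := by
  induction K with
  | zero =>
    refine (Set.finite_singleton (∅ : Finset E)).subset ?_
    rintro _ ⟨ω, rfl⟩
    rfl
  | succ K ih =>
    have h1 : Set.range (dex nx (K+1)) ⊆ ⋃ R ∈ Set.range (dex nx K), ⋃ T ∈ (R.powerset : Set (Finset E)),
        {(nx R T).elim R (fun e => insert e R)} := by
      rintro _ ⟨ω, rfl⟩
      simp only [Set.mem_iUnion, Set.mem_singleton_iff]
      refine ⟨dex nx K ω, ⟨ω, rfl⟩, cutS (dex nx K ω) ω, ?_, rfl⟩
      exact Finset.mem_coe.mpr (Finset.mem_powerset.mpr (cutS_sub _ _))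
    refine Set.Finite.subset ?_ h1
    refine Set.Finite.biUnion ih fun R _ => ?_
    exact Set.Finite.biUnion (Finset.finite_toSet _) fun T _ => Set.finite_singleton _

theorem dex_fin (K : ℕ) : ∃ S : Finset E, ∀ ω, dex nx K ω ⊆ S := by
  refine ⟨(dex_finite (nx := nx) K).toFinset.biUnion id, fun ω e he => ?_⟩
  rw [Finset.mem_biUnion]
  exact ⟨dex nx K ω, by simp, he⟩

theorem dec_expl (hnx : ∀ R T e, nx R T = some e → e ∉ R) {Y : Type*} {X : (E → Bool) → Y} {e0 : E}
    (hobs : ∀ K ω ω', ¬ dL nx K ω → (∀ e ∈ dex nx K ω, ω' e = ω e) → X ω' = X ω)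
    (hdet : ∀ K ω ω', dL nx K ω → X ω' = X ω → dL nx K ω' ∧ ∀ e ∈ dex nx K ω, ω' e = ω e)
    (hfirst : ∀ ω ω', X ω' = X ω → ω' e0 = ω e0) :
    Expl (dex nx) (dL nx) X e0 where
  stab := fun K ω ω' h => by
    have h1 := dex_stab K ω ω' h
    exact ⟨h1, by unfold dL; rw [h1]⟩
  mono := dex_mono
  anti := dL_anti
  done := fun K ω h => dex_none (dex_done hnx K ω h)
  card := dex_card
  low := fun K ω h => by unfold dL at h; omega
  fin := dex_fin
  obs := hobs
  det := hdet
  first := hfirst

end

end Q292.TVY
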