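import Pool.Agent.Q292.TVY.Main
import Pool.Agent.Results.MP_b3e76a_pr.LoopLaw

/-!
The exploration of an interface loop.
-/

set_option autoImplicit false

namespace Q292.TVY

open H974 Finset Q292.TVX MeasureTheory ProbabilityTheory H984P Pool.Agent.Y993.LL

/-- configurations of the square lattice -/
abbrev Cf := sqLattice.edgeSet → Bool

/-- the interface from `σ` as a path -/
noncomputable def ifc (σ : St) (ω : Cf) (s : ℕ) : St := orb (opn ω) σ s

/-- the edges examined during the first `K` steps -/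
noncomputable def lex (σ : St) (K : ℕ) (ω : Cf) : Finset sqLattice.edgeSet :=
  (Finset.range K).image (fun s => toE (ae (ifc σ ω s)))

/-- the interface has not closed in less than `K` steps -/
def lL (σ : St) (K : ℕ) (ω : Cf) : Prop := ∀ s, 0 < s → s < K → ifc σ ω s ≠ σ

theorem mv_ne_rt (τ : St) : mv τ ≠ rt τ := by
  obtain ⟨⟨x, y⟩, q⟩ := τ
  cases q <;> simp

theorem nxt_congr {ω ω' : Cf} {τ : St} (h : ω' (toE (ae τ)) = ω (toE (ae τ))) :
    nxt (opn ω') τ = nxt (opn ω) τ := by
  have h1 : ae τ ∈ opn ω' ↔ ae τ ∈ opn ω := by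
    show ω' (toE (ae τ)) = true ↔ ω (toE (ae τ)) = true
    rw [h]
  by_cases h2 : ae τ ∈ opn ω
  · rw [nxt_open h2, nxt_open (h1.mpr h2)]
  · rw [nxt_closed h2, nxt_closed (fun h => h2 (h1.mp h))]

theorem of_nxt_eq {ω ω' : Cf} {τ : St} (h : nxt (opn ω') τ = nxt (opn ω) τ) :
    ω' (toE (ae τ)) = ω (toE (ae τ)) := by
  have h1 : ae τ ∈ opn ω' ↔ ae τ ∈ opn ω := by
    by_cases h1 : ae τ ∈ opn ω' <;> by_cases h2 : ae τ ∈ opn ω
    · exact ⟨fun _ => h2, fun _ => h1⟩
    · rw [nxt_open h1, nxt_closed h2] at h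
      exact absurd h (mv_ne_rt τ)
    · rw [nxt_closed h1, nxt_open h2] at h
      exact absurd h.symm (mv_ne_rt τ)
    · exact ⟨fun h => absurd h h1, fun h => absurd h h2⟩
  have h2 : ω' (toE (ae τ)) = true ↔ ω (toE (ae τ)) = true := h1
  exact Bool.eq_iff_iff.mpr h2

theorem ifc_agree {σ : St} {K : ℕ} {ω ω' : Cf} (h : ∀ e ∈ lex σ K ω, ω' e = ω e) :
    ∀ s ≤ K, ifc σ ω' s = ifc σ ω s := by
  intro s
  induction s with
  | zero => intro _; rfl
  | succ s ih =>
    intro hs
    have h1 := ih (by omega)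
    show orb (opn ω') σ (s+1) = orb (opn ω) σ (s+1)
    rw [orb_succ, orb_succ]
    have h2 : orb (opn ω') σ s = orb (opn ω) σ s := h1
    rw [h2]
    apply nxt_congr
    apply h
    exact Finset.mem_image.mpr ⟨s, Finset.mem_range.mpr (by omega), rfl⟩

theorem ifc_inj {σ : St} {ω : Cf} {i j : ℕ} (hij : i < j) (h : ifc σ ω i = ifc σ ω j) :
    ifc σ ω (j - i) = σ := by
  have h1 : (nxt (opn ω))^[i] ((nxt (opn ω))^[j - i] σ) = (nxt (opn ω))^[i] σ := by
    rw [← Function.iterate_add_apply]
    have : i + (j - i) = j := by omega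
    rw [this]
    exact h.symm
  exact ((nxt_bij (opn ω)).injective.iterate i) h1

/-- The two states which examine an edge. -/
theorem ae_fiber (e : Edg) : ∃ τ₁ τ₂ : St, ∀ τ, ae τ = e → τ = τ₁ ∨ τ = τ₂ := by
  obtain ⟨x, y, b⟩ := e
  cases b
  · refine ⟨((x, y), .nw), ((x, y + 1), .se), ?_⟩
    rintro ⟨⟨u, v⟩, q⟩ h
    cases q <;> simp at h ⊢ <;> omega
  · refine ⟨((x, y), .ne), ((x + 1, y), .sw), ?_⟩
    rintro ⟨⟨u, v⟩, q⟩ h
    cases q <;> simp at h ⊢ <;> omega

/-- the states reachable in at most `K` steps -/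
noncomputable def rch (σ : St) : ℕ → Finset St
  | 0 => {σ}
  | K + 1 => rch σ K ∪ ((rch σ K).image mv ∪ (rch σ K).image rt)

theorem mem_rch (σ : St) (ω : Cf) (s : ℕ) : ifc σ ω s ∈ rch σ s := by
  induction s with
  | zero => exact Finset.mem_singleton_self _
  | succ s ih =>
    show orb (opn ω) σ (s+1) ∈ _
    rw [orb_succ]
    unfold rch nxt
    split_ifs
    · exact Finset.mem_union_right _ (Finset.mem_union_left _ (Finset.mem_image_of_mem _ ih))
    · exact Finset.mem_union_right _ (Finset.mem_union_right _ (Finset.mem_image_of_mem _ ih))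

theorem rch_mono (σ : St) {s K : ℕ} (h : s ≤ K) : rch σ s ⊆ rch σ K := by
  induction K, h using Nat.le_induction with
  | base => exact Finset.Subset.refl _
  | succ m _ ih => exact ih.trans Finset.subset_union_left

theorem ifc_add {σ : St} {ω : Cf} {p : ℕ} (h : ifc σ ω p = σ) (s : ℕ) :
    ifc σ ω (s + p) = ifc σ ω s := by
  show orb (opn ω) σ (s + p) = orb (opn ω) σ s
  rw [orb_add]
  have : orb (opn ω) σ p = σ := h
  rw [this]

theorem ifc_det {σ : St} {ω ω' : Cf} (h : ifc σ ω' = ifc σ ω) (s : ℕ) :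
    ω' (toE (ae (ifc σ ω s))) = ω (toE (ae (ifc σ ω s))) := by
  apply of_nxt_eq
  have h1 : orb (opn ω') σ (s+1) = orb (opn ω) σ (s+1) := congrFun h (s+1)
  rw [orb_succ, orb_succ] at h1
  have h2 : orb (opn ω') σ s = orb (opn ω) σ s := congrFun h s
  rw [h2] at h1
  exact h1

theorem loop_expl (σ : St) : Expl (lex σ) (lL σ) (ifc σ) (toE (ae σ)) where
  stab := by
    intro K ω ω' h
    have h1 := ifc_agree h
    constructor
    · unfold lex
      refine Finset.image_congr fun s hs => ?_
      have hs' : s < K := by simpa using hs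
      rw [h1 s hs'.le]
    · unfold lL
      constructor
      · intro h2 s hs hs'
        rw [← h1 s hs'.le]
        exact h2 s hs hs'
      · intro h2 s hs hs'
        rw [h1 s hs'.le]
        exact h2 s hs hs'
  mono := by
    intro K ω
    exact Finset.image_subset_image (Finset.range_subset_range.mpr (by omega))
  anti := by
    intro K ω h s hs hs'
    exact h s hs (by omega)
  done := by
    intro K ω hn
    unfold lL at hn
    push Not at hn
    obtain ⟨p, hp, hpK, hp2⟩ := hn
    have h1 : ifc σ ω K = ifc σ ω (K - p) := by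
      have := ifc_add hp2 (K - p)
      rwa [Nat.sub_add_cancel hpK.le] at this
    unfold lex
    rw [Finset.range_add_one, Finset.image_insert, Finset.insert_eq_self, h1]
    exact Finset.mem_image.mpr ⟨K - p, Finset.mem_range.mpr (by omega), rfl⟩
  card := by
    intro K ω
    refine Finset.card_image_le.trans ?_
    rw [Finset.card_range]
  low := by
    intro K ω hL
    classical
    have h1 : ((Finset.range K).image (ifc σ ω)).card = K := by
      rw [Finset.card_image_of_injOn, Finset.card_range]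
      intro i hi j hj hij
      rw [Finset.coe_range, Set.mem_Iio] at hi hj
      by_contra hne
      rcases Nat.lt_or_gt_of_ne hne with h | h
      · exact hL (j - i) (by omega) (by omega) (ifc_inj h hij)
      · exact hL (i - j) (by omega) (by omega) (ifc_inj h hij.symm)
    have h2 : lex σ K ω = ((Finset.range K).image (ifc σ ω)).image (fun τ => toE (ae τ)) := by
      rw [Finset.image_image]
      rfl
    have h3 := Finset.card_le_mul_card_image (f := fun τ : St => toE (ae τ))
      ((Finset.range K).image (ifc σ ω)) 2 (by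
        intro b hb
        obtain ⟨τ, -, rfl⟩ := Finset.mem_image.mp hb
        obtain ⟨τ₁, τ₂, h4⟩ := ae_fiber (ae τ)
        refine (Finset.card_le_card (t := {τ₁, τ₂}) ?_).trans Finset.card_le_two
        intro τ' hτ'
        rw [Finset.mem_filter] at hτ'
        have h5 := h4 τ' (toE_inj hτ'.2)
        simpa using h5)
    rw [← h2, h1] at h3
    omega
  fin := by
    intro K
    refine ⟨(rch σ K).image (fun τ => toE (ae τ)), fun ω => ?_⟩
    intro e he
    obtain ⟨s, hs, rfl⟩ := Finset.mem_image.mp he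
    rw [Finset.mem_range] at hs
    exact Finset.mem_image.mpr ⟨_, rch_mono σ hs.le (mem_rch σ ω s), rfl⟩
  obs := by
    intro K ω ω' hn h
    have h1 := ifc_agree h
    unfold lL at hn
    push Not at hn
    obtain ⟨p, hp, hpK, hp2⟩ := hn
    have hp2' : ifc σ ω' p = σ := by rw [h1 p hpK.le, hp2]
    funext s
    induction s using Nat.strong_induction_on with
    | _ s ih =>
      by_cases hs : s ≤ K
      · exact h1 s hs
      · have h2 := ifc_add hp2 (s - p)
        have h3 := ifc_add hp2' (s - p)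
        rw [Nat.sub_add_cancel (by omega)] at h2 h3
        rw [h2, h3]
        exact ih _ (by omega)
  det := by
    intro K ω ω' hL h
    refine ⟨fun s hs hs' => ?_, fun e he => ?_⟩
    · rw [h]
      exact hL s hs hs'
    · obtain ⟨s, -, rfl⟩ := Finset.mem_image.mp he
      exact ifc_det h s
  first := by
    intro ω ω' h
    exact ifc_det h 0

theorem lL_iff {σ : St} {ω : Cf} (h1 : 0 < Function.minimalPeriod (nxt (opn ω)) σ)
    (h2 : Function.minimalPeriod (nxt (opn ω)) σ = (loop (opn ω) σ).ncard) (K : ℕ) :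
    lL σ K ω ↔ K ≤ (loop (opn ω) σ).ncard := by
  rw [← h2]
  constructor
  · intro h
    by_contra hcon
    rw [not_le] at hcon
    exact h _ h1 hcon (Function.isPeriodicPt_minimalPeriod _ _)
  · intro h s hs hs' h3
    have h4 : Function.IsPeriodicPt (nxt (opn ω)) s σ := h3
    have := h4.minimalPeriod_le hs
    omega

theorem loop_tail (σ : St) (K : ℕ) : (law fun _ => half).real {ω | lL σ K ω} =
    (bondLaw hlf).real {ω | K ≤ (loop (opn ω) σ).ncard} := by
  obtain ⟨c, C, hc, hC, h1, -⟩ := Pool.Agent.Results.MP_b3e76a_pr.LoopLaw.result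
  show (bondLaw hlf).real {ω | lL σ K ω} = _
  apply measureReal_congr
  filter_upwards [h1] with ω hω
  exact propext (lL_iff (hω σ).1 (hω σ).2 K)

theorem loop_upper : ∃ C' : ℝ, 0 < C' ∧ ∀ (σ : St) (δ : ℝ)
      (p : sqLattice.edgeSet → unitInterval), (∀ e, |(p e : ℝ) - 1/2| ≤ δ) →
        ∀ B : Set (ℕ → St),
        |(law p).real {ω | ifc σ ω ∈ B} - (law fun _ => half).real {ω | ifc σ ω ∈ B}| ≤
          C' * δ ^ (2 * (1/7) : ℝ) := by
  obtain ⟨c, C, hc, hC, -, h2, -⟩ := Pool.Agent.Results.MP_b3e76a_pr.LoopLaw.result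
  obtain ⟨C', hC', h⟩ := main_upper (E := sqLattice.edgeSet) (Y := ℕ → St) (a := 1/7)
    (by norm_num) (by norm_num) hC
  refine ⟨C', hC', fun σ => ?_⟩
  exact h (lex σ) (lL σ) (ifc σ) (toE (ae σ)) (loop_expl σ)
    (fun K hK => by rw [loop_tail]; exact (h2 σ K hK).2)

theorem loop_lower {A : ℝ} (hA : 1 ≤ A) : ∃ c' : ℝ, 0 < c' ∧ ∀ (σ : St) (δ : ℝ)
      (p : sqLattice.edgeSet → unitInterval),
        (∀ e, δ / A ≤ |(p e : ℝ) - 1/2| ∧ |(p e : ℝ) - 1/2| ≤ δ) →
        ∃ B : Set (ℕ → St), MeasurableSet {ω | ifc σ ω ∈ B} ∧ c' * δ ^ (2 * (1/7) : ℝ) ≤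
        |(law p).real {ω | ifc σ ω ∈ B} - (law fun _ => half).real {ω | ifc σ ω ∈ B}| := by
  obtain ⟨c, C, hc, hC, -, h2, -⟩ := Pool.Agent.Results.MP_b3e76a_pr.LoopLaw.result
  obtain ⟨c', hc', h⟩ := main_lower (E := sqLattice.edgeSet) (Y := ℕ → St) (a := 1/7)
    (by norm_num) (by norm_num) hC hc hA
  refine ⟨c', hc', fun σ => ?_⟩
  exact h (lex σ) (lL σ) (ifc σ) (toE (ae σ)) (loop_expl σ)
    (fun K hK => by rw [loop_tail]; exact (h2 σ K hK).2)
    (fun K hK => by rw [loop_tail]; exact (h2 σ K hK).1)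

end Q292.TVY
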