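import Pool.Agent.Q292.TVY.Rec

/-!
Nested explorations with polynomial tails: the lower bound of the total variation distance.
-/

set_option autoImplicit false

namespace Q292.TVY

open H974 Finset Q292.TVX

variable {E : Type*} [DecidableEq E]

theorem tilt {q : ℝ} (hq0 : 0 ≤ q) (hq1 : q ≤ 1) : ∃ r ρ : ℝ, 0 ≤ r ∧ r ≤ 1 ∧
    |r - 1/2| ≤ |q - 1/2| ∧ 0 ≤ ρ ∧ ρ ≤ 1 ∧ ρ ≤ Real.exp (-((q - 1/2) ^ 2 / 2)) ∧
    ρ * (2 * r) = Real.sqrt (2 * q) ∧ ρ * (2 * (1 - r)) = Real.sqrt (2 * (1 - q)) := by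
  set s := Real.sqrt (2 * q) with hs
  set t := Real.sqrt (2 * (1 - q)) with htt
  have s0 : 0 ≤ s := Real.sqrt_nonneg _
  have t0 : 0 ≤ t := Real.sqrt_nonneg _
  have s2 : s ^ 2 = 2 * q := Real.sq_sqrt (by linarith)
  have t2 : t ^ 2 = 2 * (1 - q) := Real.sq_sqrt (by linarith)
  have hst : 0 < s + t := by
    rcases lt_or_eq_of_le (add_nonneg s0 t0) with h | h
    · exact h
    · exfalso
      have h1 : s = 0 := by linarith
      have h2 : t = 0 := by linarith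
      rw [h1] at s2
      rw [h2] at t2
      linarith
  set ρ := (s + t) / 2 with hρ
  have hρ0 : 0 < ρ := by positivity
  set r := s / (s + t) with hr
  have h1 : ρ * (2 * r) = s := by
    rw [hρ, hr]; field_simp
  have h2 : ρ * (2 * (1 - r)) = t := by
    rw [hρ, hr]; field_simp; ring
  have hr0 : 0 ≤ r := by positivity
  have hr1 : r ≤ 1 := by
    rw [hr, div_le_one hst]; linarith
  have hρ2 : ρ ^ 2 ≤ 1 - (q - 1/2) ^ 2 := by
    have h3 : ρ ^ 2 = (s ^ 2 + t ^ 2 + 2 * (s * t)) / 4 := by rw [hρ]; ring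
    have h4 : s * t ≤ (1 + s ^ 2 * t ^ 2) / 2 := by nlinarith [sq_nonneg (1 - s * t)]
    rw [s2, t2] at h3 h4
    rw [h3]
    nlinarith
  have hρ1 : ρ ≤ 1 := by
    have : ρ ^ 2 ≤ 1 ^ 2 := by nlinarith [sq_nonneg (q - 1/2)]
    exact (pow_le_pow_iff_left₀ hρ0.le zero_le_one (by norm_num)).1 this
  have hρe : ρ ≤ Real.exp (-((q - 1/2) ^ 2 / 2)) := by
    have h3 : ρ ^ 2 ≤ Real.exp (-((q - 1/2) ^ 2 / 2)) ^ 2 := by
      rw [← Real.exp_nat_mul]
      have h4 := Real.add_one_le_exp (-((q - 1/2) ^ 2))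
      have h5 : ((2 : ℕ) : ℝ) * -((q - 1/2) ^ 2 / 2) = -((q - 1/2) ^ 2) := by push_cast; ring
      rw [h5]
      linarith
    exact (pow_le_pow_iff_left₀ hρ0.le (Real.exp_pos _).le (by norm_num)).1 h3
  refine ⟨r, ρ, hr0, hr1, ?_, hρ0.le, hρ1, hρe, h1, h2⟩
  have h3 : (s + t) ^ 2 * (r - 1/2) = 2 * (q - 1/2) := by
    rw [hr]
    field_simp
    nlinarith
  have h4 : 2 ≤ (s + t) ^ 2 := by nlinarith [mul_nonneg s0 t0]
  have h5 : |(s + t) ^ 2 * (r - 1/2)| = |2 * (q - 1/2)| := by rw [h3]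
  rw [abs_mul, abs_mul, abs_of_nonneg (sq_nonneg _), abs_of_pos (by norm_num : (0:ℝ) < 2)] at h5
  have h6 := abs_nonneg (r - 1/2)
  nlinarith

theorem dens_tilt' {ex : Finset E → Finset E} {p r ρ : E → ℝ} (hp : Ok p)
    (h1 : ∀ e, ρ e * (2 * r e) = Real.sqrt (2 * p e))
    (h2 : ∀ e, ρ e * (2 * (1 - r e)) = Real.sqrt (2 * (1 - p e)))
    (F : Finset E) :
    (∏ e ∈ ex F, ρ e) * dens r ex F = Real.sqrt (dens p ex F) := by
  unfold TVX.dens
  rw [Real.sqrt_prod, ← Finset.prod_mul_distrib]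
  · refine Finset.prod_congr rfl fun e _ => ?_
    unfold pe
    split_ifs
    · exact h1 e
    · exact h2 e
  · intro e _
    have := hp e
    unfold pe
    split_ifs <;> linarith

theorem aff_on {S : Finset E} {ex : Finset E → Finset E} (ht : Tree S ex) {A : Finset E → Prop}
    (hA : DetP S ex A) {p : E → ℝ} (hp : Ok p) {d : ℝ} (hd0 : 0 ≤ d)
    (hd : ∀ e, d ≤ |p e - 1/2|) {k : ℕ}
    (hk : ∀ F, F ⊆ S → A F → k ≤ (ex F).card) : ∃ r : E → ℝ, Ok r ∧
    (∀ e, |r e - 1/2| ≤ |p e - 1/2|) ∧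
    Ex hf S (fun F => ind (A F) * Real.sqrt (dens p ex F)) ≤
      Real.exp (-(d ^ 2 * k / 2)) * Pr r S A := by
  choose r ρ hr0 hr1 hrq hρ0 hρ1 hρe h1 h2 using fun e => tilt (hp e).1 (hp e).2
  have hok : Ok r := fun e => ⟨hr0 e, hr1 e⟩
  refine ⟨r, hok, hrq, ?_⟩
  have hdet : Det S ex (fun F => ind (A F) * ∏ e ∈ ex F, ρ e) :=
    det_mul hA.det (fun F G hF hG h => by rw [ht.stab F G hF hG h])
  have h3 : Ex hf S (fun F => ind (A F) * Real.sqrt (dens p ex F)) =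
      Ex r S (fun F => ind (A F) * ∏ e ∈ ex F, ρ e) := by
    rw [change ht r hdet]
    refine Ex_congr fun F _ => ?_
    rw [← dens_tilt' hp h1 h2 F]
    ring
  rw [h3]
  unfold Pr
  rw [← Ex_mul_left]
  refine Ex_mono hok fun F hF => ?_
  by_cases hAF : A F
  · rw [ind_of hAF, one_mul, mul_one]
    have h4 : ∏ e ∈ ex F, ρ e ≤ ∏ _e ∈ ex F, Real.exp (-(d ^ 2 / 2)) := by
      refine Finset.prod_le_prod (fun e _ => hρ0 e) fun e _ => (hρe e).trans ?_
      apply Real.exp_le_exp.mpr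
      have : d ^ 2 ≤ (p e - 1/2) ^ 2 := by
        rw [← sq_abs (p e - 1/2)]
        exact pow_le_pow_left₀ hd0 (hd e) 2
      linarith
    rw [Finset.prod_const] at h4
    refine h4.trans ?_
    have h5 : Real.exp (-(d ^ 2 / 2)) ≤ 1 := by
      rw [Real.exp_le_one_iff]
      have := sq_nonneg d
      linarith
    refine (pow_le_pow_of_le_one (Real.exp_pos _).le h5 (hk F hF hAF)).trans (le_of_eq ?_)
    rw [← Real.exp_nat_mul]
    congr 1
    ring
  · rw [ind_not_of hAF, zero_mul, mul_zero]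

/-- A separating event. -/
theorem sep_on {S : Finset E} {ex : Finset E → Finset E} (ht : Tree S ex) {A : Finset E → Prop}
    (hA : DetP S ex A) {p : E → ℝ} (hp : Ok p) {d : ℝ} (hd0 : 0 ≤ d)
    (hd : ∀ e, d ≤ |p e - 1/2|) {k : ℕ}
    (hk : ∀ F, F ⊆ S → A F → k ≤ (ex F).card) : ∃ r : E → ℝ, Ok r ∧
    (∀ e, |r e - 1/2| ≤ |p e - 1/2|) ∧ ∃ B : Finset E → Prop, DetP S ex B ∧ (∀ F, B F → A F) ∧
    Pr hf S A - 2 * (Real.exp (-(d ^ 2 * k / 2)) * Pr r S A) ≤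
      Pr hf S B - Pr p S B := by
  obtain ⟨r, hr, hrq, haf⟩ := aff_on ht hA hp hd0 hd hk
  have hdet := detP_of hA (det_dens ht p) (fun x => x ≤ 1)
  refine ⟨r, hr, hrq, fun F => A F ∧ dens p ex F ≤ 1, hdet, fun F h => h.1, ?_⟩
  have h1 : Pr p S (fun F => A F ∧ dens p ex F ≤ 1) ≤
      Ex hf S (fun F => ind (A F) * Real.sqrt (dens p ex F)) := by
    unfold Pr
    rw [change ht p hdet.det]
    refine Ex_mono hf_ok fun F _ => ?_
    have h0 := dens_nonneg' hp ex F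
    by_cases h : A F ∧ dens p ex F ≤ 1
    · rw [ind_of h, one_mul, ind_of h.1, one_mul]
      have h1 := Real.sq_sqrt h0
      have h2 : Real.sqrt (dens p ex F) ≤ 1 := Real.sqrt_le_one.mpr h.2
      have h3 := Real.sqrt_nonneg (dens p ex F)
      nlinarith
    · rw [ind_not_of h, zero_mul]
      exact mul_nonneg (ind_nonneg _) (Real.sqrt_nonneg _)
  have h2 : Pr hf S A ≤ Pr hf S (fun F => A F ∧ dens p ex F ≤ 1) +
      Ex hf S (fun F => ind (A F) * Real.sqrt (dens p ex F)) := by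
    unfold Pr
    rw [← Ex_add]
    refine Ex_mono hf_ok fun F _ => ?_
    by_cases hAF : A F
    · by_cases h : dens p ex F ≤ 1
      · rw [ind_of hAF, ind_of ⟨hAF, h⟩, one_mul]
        have := Real.sqrt_nonneg (dens p ex F)
        linarith
      · rw [ind_of hAF, ind_not_of (fun h' => h h'.2), one_mul, zero_add]
        rw [not_le] at h
        exact (Real.one_le_sqrt).mpr h.le
    · rw [ind_not_of hAF, ind_not_of (fun h' => hAF h'.1)]
      simp
  linarith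

/-- The lower bound: at a level of order `δ ^ (-2)` there is a separating event. -/
theorem low_level {a C c A : ℝ} (ha0 : 0 < a) (ha : a < 1/2) (hC : 0 < C) (hc : 0 < c)
    (hA : 1 ≤ A) :
    ∃ M c' : ℝ, 1 ≤ M ∧ 0 < c' ∧ ∀ (p : E → ℝ) (δ : ℝ), Ok p → 0 < δ → 12 * δ ≤ kap a →
      (∀ e, δ / A ≤ |p e - 1/2| ∧ |p e - 1/2| ≤ δ) →
      ∀ (N : ℕ) (S : Finset E) (ex : ℕ → Finset E → Finset E) (L : ℕ → Finset E → Prop),
        Fam N S ex L → N = ⌈M / δ ^ 2⌉₊ →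
        (∀ K, 1 ≤ K → K ≤ N → Pr hf S (L K) ≤ C * (K:ℝ) ^ (-a)) →
        c * (N:ℝ) ^ (-a) ≤ Pr hf S (L N) →
        ∃ B : Finset E → Prop, DetP S (ex N) B ∧ (∀ F, B F → L N F) ∧
          c' * δ ^ (2 * a) ≤ Pr hf S B - Pr p S B := by
  have hk := kap_pos ha
  have hk2 := kap_le ha0
  have hcub := cub_pos ha hC
  set D := cub a C with hD
  have hA0 : 0 < A := by linarith
  set M' : ℝ := (256 * A * D / c) ^ 2 + 32 with hM'
  have hM32 : 32 ≤ M' := by
    have : 0 ≤ (256 * A * D / c) ^ 2 := sq_nonneg _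
    linarith
  set M : ℝ := A ^ 2 * M' with hM
  have hA2 : 1 ≤ A ^ 2 := one_le_pow₀ hA
  have hM1 : 1 ≤ M := by nlinarith
  have hM0 : 0 < M := by linarith
  refine ⟨M, c / 2 * (2 * M) ^ (-a), hM1, by positivity, ?_⟩
  intro p δ hp hd0 hqk hpd N S ex L h hN htail hlow
  obtain ⟨j, hj1, hj2, hj3⟩ := level ha0 ha hd0 hqk
  have hNr : M / δ ^ 2 ≤ N := by rw [hN]; exact Nat.le_ceil _
  have hd24 : δ ≤ 1/24 := by linarith
  have hd2 : δ ^ 2 ≤ 1 := by nlinarith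
  have hd2' : 0 < δ ^ 2 := by positivity
  have hMd : 1 ≤ M / δ ^ 2 := by rw [one_le_div hd2']; linarith
  have hNr' : (N:ℝ) ≤ 2 * (M / δ ^ 2) := by
    rw [hN]
    have := Nat.ceil_lt_add_one (a := M / δ ^ 2) (by positivity)
    linarith
  have hjN : 4 ^ j ≤ N := by
    have h1 : (((4 ^ j : ℕ)) : ℝ) ≤ M / δ ^ 2 := by
      rw [le_div_iff₀ hd2']
      linarith
    exact_mod_cast h1.trans hNr
  obtain ⟨r, hr, hrq, B, hB1, hB2, hB3⟩ := sep_on (h.tree N le_rfl) (h.det N le_rfl) hp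
    (d := δ / A) (by positivity) (fun e => (hpd e).1)
    (k := N / 8) (fun F hF hL => h.low N F le_rfl hF hL)
  refine ⟨B, hB1, hB2, le_trans ?_ hB3⟩
  have h1 : Pr r S (L N) ≤ D * δ ^ (2 * a) := by
    have h2 : Pr r S (L N) ≤ Pr r S (L (4 ^ j)) :=
      Pr_mono hr fun F hF hL => h.anti _ _ F hjN le_rfl hF hL
    have h3 := at_level h ha0 ha hC htail hd0 (p := r) (fun e => (hrq e).trans (hpd e).2)
      hjN hj1 hj2
    have h4 := (abs_le.1 (pr_le_dst (h.tree _ hjN) r (h.det _ hjN))).2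
    linarith
  have h2 : Real.exp (-((δ / A) ^ 2 * ((N / 8 : ℕ) : ℝ) / 2)) ≤ 32 / M' := by
    have h3 : (N:ℝ) / 8 - 1 ≤ ((N / 8 : ℕ) : ℝ) := by
      have h4 : N < 8 * (N / 8) + 8 := by omega
      have h5 : (N:ℝ) < 8 * ((N / 8 : ℕ) : ℝ) + 8 := by exact_mod_cast h4
      linarith
    have hda : (δ / A) ^ 2 = δ ^ 2 / A ^ 2 := div_pow _ _ _
    have hda1 : (δ / A) ^ 2 ≤ 1 := by
      rw [hda, div_le_one (by positivity)]
      linarith
    have h4 : M' / 16 - 1 ≤ (δ / A) ^ 2 * ((N / 8 : ℕ) : ℝ) / 2 := by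
      have h5 : (δ / A) ^ 2 * ((N:ℝ) / 8 - 1) ≤ (δ / A) ^ 2 * ((N / 8 : ℕ) : ℝ) :=
        mul_le_mul_of_nonneg_left h3 (sq_nonneg _)
      have h6 : M' ≤ (δ / A) ^ 2 * N := by
        rw [div_le_iff₀ hd2'] at hNr
        rw [hda, div_mul_eq_mul_div, le_div_iff₀ (by positivity)]
        linarith
      nlinarith
    have h5 : Real.exp (-((δ / A) ^ 2 * ((N / 8 : ℕ) : ℝ) / 2)) ≤ Real.exp (-(M' / 32)) :=
      Real.exp_le_exp.mpr (by linarith)
    refine h5.trans ?_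
    rw [Real.exp_neg]
    have h6 : M' / 32 ≤ Real.exp (M' / 32) := by
      have := Real.add_one_le_exp (M' / 32)
      linarith
    have h7 := inv_anti₀ (by positivity) h6
    rwa [inv_div] at h7
  have h3 : c * (2 * M) ^ (-a) * δ ^ (2 * a) ≤ Pr hf S (L N) := by
    refine le_trans ?_ hlow
    rw [mul_assoc]
    refine mul_le_mul_of_nonneg_left ?_ hc.le
    have h4 : (2 * (M / δ ^ 2)) ^ (-a) ≤ (N:ℝ) ^ (-a) :=
      Real.rpow_le_rpow_of_nonpos (by
        have : (0:ℝ) < M / δ ^ 2 := by positivity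
        linarith) hNr' (by linarith)
    refine le_trans (le_of_eq ?_) h4
    rw [mul_div_assoc', Real.div_rpow (by positivity) (by positivity), div_eq_mul_inv,
      ← Real.rpow_neg (by positivity), neg_neg, ← Real.rpow_natCast, ← Real.rpow_mul hd0.le]
    norm_num
  have h4 : 64 / M' * D ≤ c / 2 * (2 * M) ^ (-a) := by
    have h5 : (2 * M) ^ (-(1/2) : ℝ) ≤ (2 * M) ^ (-a) :=
      Real.rpow_le_rpow_of_exponent_le (by linarith) (by linarith)
    have h6 : (2 * M) ^ (-(1/2) : ℝ) = (Real.sqrt (2 * M))⁻¹ := by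
      rw [Real.rpow_neg (by positivity), Real.sqrt_eq_rpow]
    rw [h6] at h5
    have h7 : 64 / M' * D ≤ c / 2 * (Real.sqrt (2 * M))⁻¹ := by
      have hs : Real.sqrt (2 * M) = A * Real.sqrt (2 * M') := by
        have h8 : 2 * M = A ^ 2 * (2 * M') := by rw [hM]; ring
        rw [h8, Real.sqrt_mul (by positivity), Real.sqrt_sq hA0.le]
      have h8 : 0 < Real.sqrt (2 * M') := Real.sqrt_pos.mpr (by positivity)
      have h9 : Real.sqrt (2 * M') ^ 2 = 2 * M' := Real.sq_sqrt (by positivity)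
      have h10 : 256 * A * D / c ≤ Real.sqrt (2 * M') := by
        apply Real.le_sqrt_of_sq_le
        linarith
      rw [div_le_iff₀ hc] at h10
      have h11 : 0 < M' := by linarith
      rw [hs, ← div_eq_mul_inv, le_div_iff₀ (by positivity), div_mul_eq_mul_div,
        div_mul_eq_mul_div, div_le_iff₀ h11]
      have h12 : 64 * D * (A * Real.sqrt (2 * M')) ≤
          (Real.sqrt (2 * M') * c) / 4 * Real.sqrt (2 * M') := by
        have h13 : 64 * D * (A * Real.sqrt (2 * M')) =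
            (256 * A * D) / 4 * Real.sqrt (2 * M') := by ring
        rw [h13]
        exact mul_le_mul_of_nonneg_right (by linarith) h8.le
      nlinarith
    refine h7.trans (mul_le_mul_of_nonneg_left h5 (by positivity))
  have h5 : 2 * (Real.exp (-((δ / A) ^ 2 * ((N / 8 : ℕ) : ℝ) / 2)) * Pr r S (L N)) ≤
      c / 2 * (2 * M) ^ (-a) * δ ^ (2 * a) := by
    have h6 : Real.exp (-((δ / A) ^ 2 * ((N / 8 : ℕ) : ℝ) / 2)) * Pr r S (L N) ≤
        32 / M' * (D * δ ^ (2 * a)) :=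
      mul_le_mul h2 h1 (Pr_nonneg hr _ _) (by positivity)
    have h7 : 64 / M' * D * δ ^ (2 * a) ≤ c / 2 * (2 * M) ^ (-a) * δ ^ (2 * a) :=
      mul_le_mul_of_nonneg_right h4 (by positivity)
    have h8 : 2 * (32 / M' * (D * δ ^ (2 * a))) = 64 / M' * D * δ ^ (2 * a) := by ring
    linarith
  have h6 : c / 2 * (2 * M) ^ (-a) * δ ^ (2 * a) =
      c * (2 * M) ^ (-a) * δ ^ (2 * a) - c / 2 * (2 * M) ^ (-a) * δ ^ (2 * a) := by ring
  rw [h6]
  linarith

end Q292.TVY
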