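import Pool.Agent.Q292.TVY.Low
import Mathlib.Probability.ProductMeasure
import Mathlib.Probability.Distributions.Bernoulli

/-!
Explorations of independent coins with polynomial tails: the total variation distance of the laws
of a discovered object between the probabilities `p` and `1/2`.
-/

set_option autoImplicit false

namespace Q292.TVY

open H974 Finset Q292.TVX MeasureTheory ProbabilityTheory

variable {E : Type*} [DecidableEq E]

/-- Independent coins; `p e` is the probability of `true` at `e`. -/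
noncomputable def law (p : E → unitInterval) : Measure (E → Bool) :=
  Measure.infinitePi (fun e : E => bernoulliMeasure true false (p e))

omit [DecidableEq E] in
theorem law_prob (p : E → unitInterval) : IsProbabilityMeasure (law p) := by
  unfold law; infer_instance

/-- the probability `1 / 2` -/
noncomputable def half : unitInterval := ⟨1/2, by norm_num, by norm_num⟩

/-- the part of a configuration in `S` -/
def cutS (S : Finset E) (ω : E → Bool) : Finset E := S.filter (fun e => ω e = true)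

/-- the configuration of a set -/
def conf (F : Finset E) (e : E) : Bool := decide (e ∈ F)

theorem bern_iff (q : unitInterval) (P : Prop) [Decidable P] :
    (bernoulliMeasure true false q {b : Bool | b = true ↔ P}).toReal =
      if P then (q : ℝ) else 1 - (q : ℝ) := by
  rw [← measureReal_def]
  by_cases he : P
  · have : {b : Bool | b = true ↔ P} = {true} := by
      ext b; simp [he]
    rw [this, if_pos he, bernoulliMeasure_real_apply_of_mem_of_notMem _
      (measurableSet_singleton _) (by simp) (by simp)]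
  · have : {b : Bool | b = true ↔ P} = {false} := by
      ext b; simp [he]
    rw [this, if_neg he, bernoulliMeasure_real_apply_of_notMem_of_mem _
      (measurableSet_singleton _) (by simp) (by simp)]
    try simp

omit [DecidableEq E] in
theorem cut_pi [DecidableEq E] {S T : Finset E} (hT : T ⊆ S) :
    {ω : E → Bool | cutS S ω = T} = Set.pi (S : Set E) (fun e => {b : Bool | b = true ↔ e ∈ T}) := by
  ext ω
  simp only [Set.mem_ofPred_eq, Set.mem_pi, Finset.mem_coe]
  constructor
  · intro h e he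
    rw [← h]
    simp [cutS, he]
  · intro h
    ext e
    simp only [cutS, Finset.mem_filter]
    constructor
    · rintro ⟨h1, h2⟩
      exact (h e h1).mp h2
    · intro h1
      exact ⟨hT h1, (h e (hT h1)).mpr h1⟩

theorem meas_cut {S T : Finset E} (hT : T ⊆ S) :
    MeasurableSet {ω : E → Bool | cutS S ω = T} := by
  rw [cut_pi hT]
  exact MeasurableSet.pi S.countable_toSet (fun _ _ => MeasurableSet.of_discrete)

theorem law_prob_cut (p : E → unitInterval) {S T : Finset E} (hT : T ⊆ S) :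
    (law p).real {ω | cutS S ω = T} =
      (∏ e ∈ T, (p e : ℝ)) * ∏ e ∈ S \ T, (1 - (p e : ℝ)) := by
  unfold law
  rw [measureReal_def, cut_pi hT]
  rw [Measure.infinitePi_pi _ (fun _ _ => MeasurableSet.of_discrete), ENNReal.toReal_prod]
  have h1 : ∀ e ∈ S, (bernoulliMeasure true false (p e)
      {b : Bool | b = true ↔ e ∈ T}).toReal = if e ∈ T then (p e : ℝ) else 1 - (p e : ℝ) :=
    fun e _ => bern_iff (p e) (e ∈ T)
  rw [Finset.prod_congr rfl h1]
  have h2 : S = T ∪ (S \ T) := by
    rw [Finset.union_sdiff_of_subset hT]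
  conv_lhs => rw [h2]
  rw [Finset.prod_union Finset.disjoint_sdiff]
  congr 1
  · exact Finset.prod_congr rfl fun e he => by rw [if_pos he]
  · exact Finset.prod_congr rfl fun e he => by rw [if_neg (Finset.mem_sdiff.mp he).2]

omit [DecidableEq E] in
theorem cutS_sub (S : Finset E) (ω : E → Bool) : cutS S ω ⊆ S := Finset.filter_subset _ _

theorem meas_cutS (S : Finset E) (A : Finset E → Prop) :
    MeasurableSet {ω : E → Bool | A (cutS S ω)} := by
  classical
  have h1 : {ω : E → Bool | A (cutS S ω)} =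
      ⋃ T ∈ S.powerset.filter A, {ω : E → Bool | cutS S ω = T} := by
    ext ω
    simp only [Set.mem_ofPred_eq, Set.mem_iUnion, Finset.mem_filter, Finset.mem_powerset,
      exists_prop]
    exact ⟨fun h => ⟨_, ⟨cutS_sub S ω, h⟩, rfl⟩, fun ⟨T, h2, h3⟩ => by rw [h3]; exact h2.2⟩
  rw [h1]
  refine Finset.measurableSet_biUnion _ fun T hT => ?_
  exact meas_cut (Finset.mem_powerset.mp (Finset.mem_filter.mp hT).1)

/-- Events of a finite set of coins. -/
theorem law_cut (p : E → unitInterval) (S : Finset E) (A : Finset E → Prop) :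
    (law p).real {ω | A (cutS S ω)} = Pr (fun e => (p e : ℝ)) S A := by
  classical
  have hP := law_prob p
  have h1 : {ω : E → Bool | A (cutS S ω)} =
      ⋃ T ∈ S.powerset.filter A, {ω : E → Bool | cutS S ω = T} := by
    ext ω
    simp only [Set.mem_ofPred_eq, Set.mem_iUnion, Finset.mem_filter, Finset.mem_powerset,
      exists_prop]
    exact ⟨fun h => ⟨_, ⟨cutS_sub S ω, h⟩, rfl⟩, fun ⟨T, h2, h3⟩ => by rw [h3]; exact h2.2⟩
  rw [h1, measureReal_biUnion_finset]
  · unfold Pr Ex
    rw [Finset.sum_filter]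
    refine Finset.sum_congr rfl fun T hT => ?_
    rw [Finset.mem_powerset] at hT
    beta_reduce
    by_cases hA : A T
    · rw [if_pos hA, ind_of hA, mul_one, law_prob_cut p hT]
    · rw [if_neg hA, ind_not_of hA, mul_zero]
  · intro T _ T' _ hne
    rw [Function.onFun, Set.disjoint_left]
    intro ω h2 h3
    exact hne (h2.symm.trans h3)
  · intro T hT
    exact meas_cut (Finset.mem_powerset.mp (Finset.mem_filter.mp hT).1)

/-- An exploration of a configuration which discovers the object `X`. -/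
structure Expl {Y : Type*} (ex : ℕ → (E → Bool) → Finset E) (L : ℕ → (E → Bool) → Prop)
    (X : (E → Bool) → Y) (e0 : E) : Prop where
  stab : ∀ K ω ω', (∀ e ∈ ex K ω, ω' e = ω e) → ex K ω' = ex K ω ∧ (L K ω' ↔ L K ω)
  mono : ∀ K ω, ex K ω ⊆ ex (K+1) ω
  anti : ∀ K ω, L (K+1) ω → L K ω
  done : ∀ K ω, ¬ L K ω → ex (K+1) ω = ex K ω
  card : ∀ K ω, (ex K ω).card ≤ K
  low : ∀ K ω, L K ω → K / 8 ≤ (ex K ω).card
  fin : ∀ K, ∃ S : Finset E, ∀ ω, ex K ω ⊆ S
  obs : ∀ K ω ω', ¬ L K ω → (∀ e ∈ ex K ω, ω' e = ω e) → X ω' = X ω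
  det : ∀ K ω ω', L K ω → X ω' = X ω → L K ω' ∧ ∀ e ∈ ex K ω, ω' e = ω e
  first : ∀ ω ω', X ω' = X ω → ω' e0 = ω e0

section

variable {Y : Type*} {ex : ℕ → (E → Bool) → Finset E} {L : ℕ → (E → Bool) → Prop}
    {X : (E → Bool) → Y} {e0 : E}

omit [DecidableEq E] in
theorem Expl.mono' (h : Expl ex L X e0) {K K' : ℕ} (hK : K ≤ K') (ω : E → Bool) :
    ex K ω ⊆ ex K' ω := by
  induction K', hK using Nat.le_induction with
  | base => exact Finset.Subset.refl _
  | succ m _ ih => exact ih.trans (h.mono m ω)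

omit [DecidableEq E] in
theorem Expl.anti' (h : Expl ex L X e0) {K K' : ℕ} (hK : K ≤ K') (ω : E → Bool) :
    L K' ω → L K ω := by
  induction K', hK using Nat.le_induction with
  | base => exact id
  | succ m _ ih => exact fun h1 => ih (h.anti m ω h1)

omit [DecidableEq E] in
theorem Expl.done' (h : Expl ex L X e0) {K K' : ℕ} (hK : K ≤ K') (ω : E → Bool) (hn : ¬ L K ω) :
    ex K' ω = ex K ω := by
  induction K', hK using Nat.le_induction with
  | base => rfl
  | succ m hm ih => rw [h.done m ω (fun h1 => hn (h.anti' hm ω h1)), ih]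

theorem agree_cut {S : Finset E} {R : Finset E} (hR : R ⊆ S) (ω : E → Bool) :
    ∀ e ∈ R, conf (cutS S ω) e = ω e := by
  intro e he
  have := hR he
  simp [conf, cutS, this]

theorem agree_inter {R F G : Finset E} (h : G ∩ R = F ∩ R) : ∀ e ∈ R, conf G e = conf F e := by
  intro e he
  have h1 : e ∈ G ∩ R ↔ e ∈ F ∩ R := by rw [h]
  simp only [Finset.mem_inter, he, and_true] at h1
  simp [conf, h1]

theorem Expl.cut (h : Expl ex L X e0) {K : ℕ} {S : Finset E} (hS : ∀ ω, ex K ω ⊆ S)
    (ω : E → Bool) : ex K (conf (cutS S ω)) = ex K ω ∧ (L K (conf (cutS S ω)) ↔ L K ω) :=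
  h.stab K ω _ (agree_cut (hS ω) ω)

theorem Expl.fam (h : Expl ex L X e0) {N : ℕ} {S : Finset E} (hS : ∀ ω, ex N ω ⊆ S) :
    Fam N S (fun K F => ex K (conf F)) (fun K F => L K (conf F)) where
  tree := fun K hK => ⟨fun F _ => (h.mono' hK _).trans (hS _), fun F G _ _ hc =>
    (h.stab K _ _ (agree_inter hc)).1⟩
  det := fun K hK F G _ _ hc => (h.stab K _ _ (agree_inter hc)).2
  mono := fun K K' F hK _ _ => h.mono' hK _
  anti := fun K K' F hK _ _ => h.anti' hK _
  done := fun K K' F hK _ _ hn => h.done' hK _ hn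
  card := fun K F _ _ => h.card K _
  low := fun K F _ _ hL => h.low K _ hL

theorem Expl.law_L (h : Expl ex L X e0) {K : ℕ} {S : Finset E} (hS : ∀ ω, ex K ω ⊆ S)
    (p : E → unitInterval) :
    (law p).real {ω | L K ω} = Pr (fun e => (p e : ℝ)) S (fun F => L K (conf F)) := by
  rw [← law_cut]
  congr 1
  ext ω
  exact (h.cut hS ω).2.symm

theorem Expl.law_X (h : Expl ex L X e0) {K : ℕ} {S : Finset E} (hS : ∀ ω, ex K ω ⊆ S)
    (p : E → unitInterval) (B : Set Y) :
    (law p).real {ω | ¬ L K ω ∧ X ω ∈ B} =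
      Pr (fun e => (p e : ℝ)) S (fun F => ¬ L K (conf F) ∧ X (conf F) ∈ B) := by
  rw [← law_cut]
  congr 1
  ext ω
  have h1 := (h.cut hS ω).2
  show (¬ L K ω ∧ X ω ∈ B) ↔ (¬ L K (conf (cutS S ω)) ∧ X (conf (cutS S ω)) ∈ B)
  rw [h1]
  refine and_congr_right fun hn => ?_
  rw [h.obs K ω _ hn (agree_cut (hS ω) ω)]

theorem Expl.detP_X (h : Expl ex L X e0) (K : ℕ) (S : Finset E) (B : Set Y) :
    DetP S (fun F => ex K (conf F)) (fun F => ¬ L K (conf F) ∧ X (conf F) ∈ B) := by
  intro F G _ _ hc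
  have h1 := agree_inter hc
  have h2 := (h.stab K _ _ h1).2
  beta_reduce
  rw [h2]
  refine and_congr_right fun hn => ?_
  rw [h.obs K _ _ hn h1]

/-- Determined events on `L K` are events of `X`. -/
theorem Expl.transfer (h : Expl ex L X e0) {K : ℕ} {S : Finset E} (hS : ∀ ω, ex K ω ⊆ S)
    {A : Finset E → Prop} (hd : DetP S (fun F => ex K (conf F)) A)
    (hA : ∀ F, A F → L K (conf F)) :
    ∃ B : Set Y, MeasurableSet {ω | X ω ∈ B} ∧ ∀ p : E → unitInterval,
      (law p).real {ω | X ω ∈ B} = Pr (fun e => (p e : ℝ)) S A := by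
  have key : {ω | X ω ∈ {y | ∃ ω, X ω = y ∧ A (cutS S ω)}} = {ω | A (cutS S ω)} := ?_
  · refine ⟨{y | ∃ ω, X ω = y ∧ A (cutS S ω)}, ?_, fun p => ?_⟩
    · rw [key]
      exact meas_cutS S A
    · rw [← law_cut, key]
  ext ω
  constructor
  · rintro ⟨ω', h1, h2⟩
    have h3 := (h.cut hS ω').2.mp (hA _ h2)
    obtain ⟨-, h4⟩ := h.det K ω' ω h3 h1.symm
    refine (hd (cutS S ω') (cutS S ω) (cutS_sub _ _) (cutS_sub _ _) ?_).mpr h2
    beta_reduce
    rw [(h.cut hS ω').1]
    ext e
    simp only [Finset.mem_inter, cutS, Finset.mem_filter]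
    constructor
    · rintro ⟨⟨a, b⟩, c⟩
      exact ⟨⟨a, by rw [← h4 e c]; exact b⟩, c⟩
    · rintro ⟨⟨a, b⟩, c⟩
      exact ⟨⟨a, by rw [h4 e c]; exact b⟩, c⟩
  · intro h2
    exact ⟨ω, rfl, h2⟩

theorem gap_le (h : Expl ex L X e0) {K : ℕ} {S : Finset E} (hS : ∀ ω, ex K ω ⊆ S)
    (p : E → unitInterval) (B : Set Y) :
    |(law p).real {ω | X ω ∈ B} - (law fun _ => half).real {ω | X ω ∈ B}| ≤
      2 * (Pr hf S (fun F => L K (conf F)) +
        dst (fun e => (p e : ℝ)) S (fun F => ex K (conf F))) := by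
  have hP := law_prob p
  have hH := law_prob (fun _ : E => half)
  have hfam := h.fam hS
  have ht := hfam.tree K le_rfl
  have hL := hfam.det K le_rfl
  have e1 := abs_le.1 (pr_le_dst ht (fun e => (p e : ℝ)) (h.detP_X K S B))
  have e2 := abs_le.1 (pr_le_dst ht (fun e => (p e : ℝ)) hL)
  have key : ∀ p : E → unitInterval,
      (law p).real {ω | ¬ L K ω ∧ X ω ∈ B} ≤ (law p).real {ω | X ω ∈ B} ∧
      (law p).real {ω | X ω ∈ B} ≤
        (law p).real {ω | ¬ L K ω ∧ X ω ∈ B} + (law p).real {ω | L K ω} := by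
    intro p
    have hP := law_prob p
    constructor
    · exact measureReal_mono (fun ω hω => hω.2)
    · refine le_trans (measureReal_mono ?_) (measureReal_union_le _ _)
      intro ω hω
      by_cases hc : L K ω
      · exact Or.inr hc
      · exact Or.inl ⟨hc, hω⟩
  have k1 := key p
  have k2 := key (fun _ => half)
  rw [h.law_X hS, h.law_L hS] at k1 k2
  have hh : (fun _ : E => ((half : unitInterval) : ℝ)) = hf := rfl
  rw [hh] at k2
  have hd := dst_nonneg (fun e => (p e : ℝ)) S (fun F => ex K (conf F))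
  have hP2 : 0 ≤ Pr hf S (fun F => L K (conf F)) := Pr_nonneg hf_ok _ _
  rw [abs_le]
  constructor <;> linarith

/-- **The total variation distance of the law of a discovered object: upper bound.** -/
theorem main_upper {a C : ℝ} (ha0 : 0 < a) (ha : a < 1/2) (hC : 0 < C) :
    ∃ C' : ℝ, 0 < C' ∧ ∀ (ex : ℕ → (E → Bool) → Finset E) (L : ℕ → (E → Bool) → Prop)
      (X : (E → Bool) → Y) (e0 : E), Expl ex L X e0 →
      (∀ K : ℕ, 1 ≤ K → (law fun _ => half).real {ω | L K ω} ≤ C * (K:ℝ) ^ (-a)) →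
      ∀ (δ : ℝ) (p : E → unitInterval), (∀ e, |(p e : ℝ) - 1/2| ≤ δ) → ∀ B : Set Y,
        |(law p).real {ω | X ω ∈ B} - (law fun _ => half).real {ω | X ω ∈ B}| ≤
          C' * δ ^ (2 * a) := by
  have hk := kap_pos ha
  have hk2 := kap_le ha0
  have hcub := cub_pos ha hC
  have hhf : (fun _ : E => ((half : unitInterval) : ℝ)) = hf := rfl
  refine ⟨2 * cub a C + (12 / kap a) ^ (2 * a), by positivity, ?_⟩
  intro ex L X e0 h htail δ p hp B
  have hδ0 : 0 ≤ δ := (abs_nonneg _).trans (hp e0)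
  have hP := law_prob p
  have hH := law_prob (fun _ : E => half)
  rcases eq_or_lt_of_le hδ0 with h0 | h0
  · have hpe : p = fun _ => half := by
      funext e
      have h1 := hp e
      rw [← h0] at h1
      have h2 : (p e : ℝ) = 1/2 := by
        have := abs_nonpos_iff.mp h1
        linarith
      exact Subtype.ext h2
    rw [hpe, sub_self, abs_zero]
    positivity
  · by_cases h1 : 12 * δ ≤ kap a
    · obtain ⟨j, hj1, hj2, -⟩ := level ha0 ha h0 h1
      obtain ⟨S, hS⟩ := h.fin (4 ^ j)
      have hfam := h.fam hS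
      have h2 := at_level hfam ha0 ha hC (fun K hK1 hK2 => by
        have h3 := htail K hK1
        rw [h.law_L (fun ω => (h.mono' hK2 ω).trans (hS ω)), hhf] at h3
        exact h3) h0 hp le_rfl hj1 hj2
      have h3 := gap_le h hS p B
      have h4 : 0 ≤ (12 / kap a) ^ (2 * a) * δ ^ (2 * a) := by positivity
      refine h3.trans ?_
      linarith
    · rw [not_le] at h1
      have h2 : |(law p).real {ω | X ω ∈ B} - (law fun _ => half).real {ω | X ω ∈ B}| ≤ 1 := by
        have a1 : 0 ≤ (law p).real {ω | X ω ∈ B} := measureReal_nonneg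
        have a2 : (law p).real {ω | X ω ∈ B} ≤ 1 := measureReal_le_one
        have a3 : 0 ≤ (law fun _ => half).real {ω | X ω ∈ B} := measureReal_nonneg
        have a4 : (law fun _ => half).real {ω | X ω ∈ B} ≤ 1 := measureReal_le_one
        rw [abs_le]
        constructor <;> linarith
      have h3 : 1 ≤ (12 / kap a) ^ (2 * a) * δ ^ (2 * a) := by
        rw [← Real.mul_rpow (by positivity) h0.le]
        apply Real.one_le_rpow _ (by linarith)
        rw [div_mul_eq_mul_div, le_div_iff₀ hk]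
        linarith
      have h4 : 0 ≤ 2 * cub a C * δ ^ (2 * a) := by positivity
      linarith

/-- **The total variation distance of the law of a discovered object: lower bound.** -/
theorem main_lower {a C c A : ℝ} (ha0 : 0 < a) (ha : a < 1/2) (hC : 0 < C) (hc : 0 < c)
    (hA : 1 ≤ A) :
    ∃ c' : ℝ, 0 < c' ∧ ∀ (ex : ℕ → (E → Bool) → Finset E) (L : ℕ → (E → Bool) → Prop)
      (X : (E → Bool) → Y) (e0 : E), Expl ex L X e0 →
      (∀ K : ℕ, 1 ≤ K → (law fun _ => half).real {ω | L K ω} ≤ C * (K:ℝ) ^ (-a)) →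
      (∀ K : ℕ, 1 ≤ K → c * (K:ℝ) ^ (-a) ≤ (law fun _ => half).real {ω | L K ω}) →
      ∀ (δ : ℝ) (p : E → unitInterval),
        (∀ e, δ / A ≤ |(p e : ℝ) - 1/2| ∧ |(p e : ℝ) - 1/2| ≤ δ) →
        ∃ B : Set Y, MeasurableSet {ω | X ω ∈ B} ∧ c' * δ ^ (2 * a) ≤
          |(law p).real {ω | X ω ∈ B} - (law fun _ => half).real {ω | X ω ∈ B}| := by
  have hk := kap_pos ha
  have hk2 := kap_le ha0
  have hhf : (fun _ : E => ((half : unitInterval) : ℝ)) = hf := rfl
  obtain ⟨M, c1, hM, hc1, hlev⟩ := low_level (E := E) ha0 ha hC hc hA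
  have hA0 : 0 < A := by linarith
  refine ⟨min c1 (kap a / 12 / A), by positivity, ?_⟩
  intro ex L X e0 h htail hlow δ p hp
  have hδ0 : 0 ≤ δ := (abs_nonneg _).trans (hp e0).2
  by_cases h1 : 12 * δ ≤ kap a ∧ 0 < δ
  · obtain ⟨h1, hd0'⟩ := h1
    set N := ⌈M / δ ^ 2⌉₊ with hN
    obtain ⟨S, hS⟩ := h.fin N
    have hN1 : 1 ≤ N := Nat.ceil_pos.mpr (by positivity)
    obtain ⟨A', hA1, hA2, hA3⟩ := hlev (fun e => (p e : ℝ)) δ (fun e => ⟨(p e).2.1, (p e).2.2⟩)
      hd0' h1 hp N S _ _ (h.fam hS) hN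
      (fun K hK1 hK2 => by
        have h3 := htail K hK1
        rw [h.law_L (fun ω => (h.mono' hK2 ω).trans (hS ω)), hhf] at h3
        exact h3)
      (by
        have h3 := hlow N hN1
        rw [h.law_L hS, hhf] at h3
        exact h3)
    obtain ⟨B, hBm, hB⟩ := h.transfer hS hA1 hA2
    refine ⟨B, hBm, ?_⟩
    rw [hB, hB, hhf, abs_sub_comm]
    refine le_trans ?_ ((hA3).trans (le_abs_self _))
    exact mul_le_mul_of_nonneg_right (min_le_left _ _) (by positivity)
  · have hset : {ω : E → Bool | X ω ∈ {y | ∃ ω, X ω = y ∧ ω e0 = true}} =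
        {ω | cutS {e0} ω = {e0}} := by
      ext ω
      have h3 : cutS {e0} ω = {e0} ↔ ω e0 = true := by
        unfold cutS
        rw [Finset.filter_eq_self]
        simp
      show (∃ ω', X ω' = X ω ∧ ω' e0 = true) ↔ cutS {e0} ω = {e0}
      rw [h3]
      constructor
      · rintro ⟨ω', h4, h5⟩
        rw [← h.first ω ω' h4]
        exact h5
      · intro h4
        exact ⟨ω, rfl, h4⟩
    have key : ∀ p : E → unitInterval,
        (law p).real {ω | X ω ∈ {y | ∃ ω, X ω = y ∧ ω e0 = true}} = (p e0 : ℝ) := by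
      intro p
      rw [hset, law_prob_cut p (Finset.Subset.refl _)]
      simp
    refine ⟨{y | ∃ ω, X ω = y ∧ ω e0 = true}, ?_, ?_⟩
    · rw [hset]
      exact meas_cut (Finset.Subset.refl _)
    rw [key, key]
    have h2 : ((half : unitInterval) : ℝ) = 1/2 := rfl
    rw [h2]
    refine le_trans ?_ (hp e0).1
    rcases eq_or_lt_of_le hδ0 with h3 | h3
    · rw [← h3, Real.zero_rpow (by positivity), mul_zero, zero_div]
    · have h4 : kap a < 12 * δ := by
        by_contra h5
        exact h1 ⟨not_lt.mp h5, h3⟩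
      have h5 : min c1 (kap a / 12 / A) * δ ^ (2 * a) ≤ kap a / 12 / A * δ ^ (2 * a) :=
        mul_le_mul_of_nonneg_right (min_le_right _ _) (by positivity)
      refine h5.trans ?_
      rw [div_mul_eq_mul_div]
      refine div_le_div_of_nonneg_right ?_ hA0.le
      rcases le_total δ 1 with h6 | h6
      · have h7 : δ ^ (2 * a) ≤ 1 := Real.rpow_le_one hδ0 h6 (by linarith)
        have h8 : kap a / 12 * δ ^ (2 * a) ≤ kap a / 12 * 1 :=
          mul_le_mul_of_nonneg_left h7 (by positivity)
        linarith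
      · have h7 : δ ^ (2 * a) ≤ δ ^ (1:ℝ) :=
          Real.rpow_le_rpow_of_exponent_le h6 (by linarith)
        rw [Real.rpow_one] at h7
        nlinarith

end

end Q292.TVY
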