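import Pool.Agent.Q292.TVY.Abs

/-!
Nested explorations with polynomial tails: the bounds of the total variation distance.
-/

set_option autoImplicit false

namespace Q292.TVY

open H974 Finset Q292.TVX

variable {E : Type*} [DecidableEq E]

/-- an auxiliary constant -/
noncomputable def kap (a : ℝ) : ℝ := ((2:ℝ) ^ (1 - 2 * a) - 1) / 2

theorem kap_pos {a : ℝ} (ha : a < 1/2) : 0 < kap a := by
  unfold kap
  have : (1:ℝ) < 2 ^ (1 - 2 * a) := Real.one_lt_rpow (by norm_num) (by linarith)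
  linarith

theorem kap_le {a : ℝ} (ha : 0 < a) : kap a ≤ 1/2 := by
  unfold kap
  have h : (2:ℝ) ^ (1 - 2 * a) ≤ 2 ^ (1:ℝ) :=
    Real.rpow_le_rpow_of_exponent_le (by norm_num) (by linarith)
  rw [Real.rpow_one] at h
  linarith

theorem two_kap (a : ℝ) : (2:ℝ) ^ (1 - 2 * a) = 1 + 2 * kap a := by
  unfold kap; ring

theorem four_eq (j : ℕ) : (((4 ^ j : ℕ) : ℝ)) = (2:ℝ) ^ (2 * j : ℝ) := by
  push_cast
  rw [show (4:ℝ) = 2 ^ (2:ℕ) by norm_num, ← pow_mul, ← Real.rpow_natCast]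
  push_cast
  rfl

theorem four_pow (a : ℝ) (j : ℕ) : (((4 ^ j : ℕ) : ℝ)) ^ (-a) * 2 ^ j = (2 ^ (1 - 2 * a)) ^ j := by
  rw [four_eq, ← Real.rpow_natCast 2 j, ← Real.rpow_mul (by norm_num),
    ← Real.rpow_add (by norm_num), ← Real.rpow_natCast, ← Real.rpow_mul (by norm_num)]
  congr 1
  ring

theorem four_neg (a : ℝ) (j : ℕ) : (((4 ^ j : ℕ) : ℝ)) ^ (-a) = ((2:ℝ) ^ j) ^ (-(2 * a)) := by
  rw [four_eq, ← Real.rpow_natCast 2 j, ← Real.rpow_mul (by norm_num),
    ← Real.rpow_mul (by norm_num)]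
  congr 1
  ring

theorem sqrt_four (j : ℕ) : Real.sqrt (((4 ^ j : ℕ) : ℝ)) = 2 ^ j := by
  push_cast
  rw [show (4:ℝ) = 2 ^ (2:ℕ) by norm_num, ← pow_mul, mul_comm, pow_mul]
  exact Real.sqrt_sq (by positivity)

section

variable {N : ℕ} {S : Finset E} {ex : ℕ → Finset E → Finset E} {L : ℕ → Finset E → Prop}

theorem dst_zero (h : Fam N S ex L) (p : E → ℝ) : dst p S (ex 0) = 0 := by
  unfold dst
  rw [← Ex_const (hf : E → ℝ) S 0]
  refine Ex_congr fun F hF => ?_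
  have h1 : ex 0 F = ∅ := by
    have := h.card 0 F (Nat.zero_le _) hF
    exact Finset.card_eq_zero.mp (by omega)
  unfold TVX.dens
  rw [h1, Finset.prod_empty, sub_self, abs_zero]

/-- The recursion. -/
theorem levels (h : Fam N S ex L) {a C : ℝ} (ha0 : 0 < a) (ha : a < 1/2) (hC : 0 < C)
    (htail : ∀ K, 1 ≤ K → K ≤ N → Pr hf S (L K) ≤ C * (K:ℝ) ^ (-a))
    {p : E → ℝ} {δ : ℝ} (hδ0 : 0 ≤ δ) (hp : ∀ e, |p e - 1/2| ≤ δ) (j : ℕ) :
    4 ^ j ≤ N → 6 * (δ * 2 ^ j) ≤ kap a →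
      dst p S (ex (4 ^ j)) ≤ (6 * C / kap a + 3) * (δ * (2 ^ (1 - 2 * a)) ^ j) := by
  have hk := kap_pos ha
  have hk2 := kap_le ha0
  have hA0 : 0 < 6 * C / kap a + 3 := by positivity
  induction j with
  | zero =>
    intro hN hδ
    rw [pow_zero] at hN hδ
    rw [pow_zero, pow_zero, mul_one]
    have h1 := dst_step (h.tree 0 (by omega)) (h.tree 1 hN)
      (fun F hF => h.mono 0 1 F (by omega) hN hF) (A := fun _ => True)
      (fun _ _ _ _ _ => Iff.rfl) (fun F _ h => absurd trivial h) hδ0 (by linarith) hp (n := 1)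
      (fun F hF => h.card 1 F hN hF) (by push_cast; nlinarith)
    rw [dst_zero h] at h1
    have h2 : Pr hf S (fun _ => True) ≤ 1 := Pr_le_one hf_ok S _
    have h3 : (0:ℝ) ≤ 3 * (δ * Real.sqrt ((1:ℕ):ℝ)) := by positivity
    have h4 : Real.sqrt ((1:ℕ):ℝ) = 1 := by simp
    rw [h4] at h1 h3
    have h5 := mul_le_mul_of_nonneg_right h2 h3
    have h6 : 0 ≤ 6 * C / kap a * δ := by positivity
    linarith
  | succ j ih =>
    intro hN hδ
    have hN' : 4 ^ j ≤ N := le_trans (Nat.pow_le_pow_right (by norm_num) (Nat.le_succ j)) hN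
    have h2j : (2:ℝ) ^ (j+1) = 2 * 2 ^ j := by ring
    have hpos : (0:ℝ) < 2 ^ j := by positivity
    rw [h2j] at hδ
    have hδj : 0 ≤ δ * 2 ^ j := by positivity
    have hδ1 : 12 * (δ * 2 ^ j) ≤ kap a := by linarith
    have ih' := ih hN' (by linarith)
    set T := dst p S (ex (4 ^ j)) with hT
    set A := 6 * C / kap a + 3 with hA
    set r : ℝ := (2:ℝ) ^ (1 - 2 * a) with hr
    have hr0 : 0 < r := by positivity
    have hlt : (1:ℝ) ≤ 2 ^ j := one_le_pow₀ (by norm_num)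
    have hδ2 : δ < 1/2 := by nlinarith
    have h1 := dst_step (h.tree _ hN') (h.tree _ hN)
      (fun F hF => h.mono _ _ F (Nat.pow_le_pow_right (by norm_num) (Nat.le_succ j)) hN hF)
      (h.det _ hN')
      (fun F hF hn => h.done _ _ F (Nat.pow_le_pow_right (by norm_num) (Nat.le_succ j)) hN hF hn)
      hδ0 hδ2 hp (n := 4 ^ (j+1)) (fun F hF => h.card _ F hN hF)
      (by
        have h3 : (((4 ^ (j+1) : ℕ)) : ℝ) = 4 * (2 ^ j) ^ 2 := by
          push_cast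
          rw [← pow_mul, mul_comm j 2, pow_mul, pow_succ]
          norm_num
          ring
        rw [h3]
        have h4 : 4 * δ ^ 2 * (4 * (2 ^ j) ^ 2) = 16 * (δ * 2 ^ j) ^ 2 := by ring
        rw [h4]
        have h5 : δ * 2 ^ j ≤ 1/24 := by linarith
        nlinarith)
    rw [sqrt_four, h2j] at h1
    have h3 := htail (4 ^ j) (Nat.one_le_pow _ _ (by norm_num)) hN'
    have h4 : Pr hf S (L (4 ^ j)) * 2 ^ j ≤ C * r ^ j := by
      rw [hr, ← four_pow, ← mul_assoc]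
      exact mul_le_mul_of_nonneg_right h3 hpos.le
    have h5 : 6 * C ≤ kap a * A := by
      rw [hA, mul_add, mul_div_assoc', mul_comm (kap a) (6 * C), mul_div_assoc,
        div_self hk.ne']
      nlinarith
    have h6 : T * (6 * (δ * 2 ^ j)) ≤ (A * (δ * r ^ j)) * kap a := by
      refine mul_le_mul ih' (by linarith) (by positivity) (by positivity)
    have h7 : Pr hf S (L (4 ^ j)) * (6 * (δ * 2 ^ j)) ≤ kap a * A * (δ * r ^ j) := by
      calc Pr hf S (L (4 ^ j)) * (6 * (δ * 2 ^ j)) = 6 * δ * (Pr hf S (L (4 ^ j)) * 2 ^ j) := by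
            ring
        _ ≤ 6 * δ * (C * r ^ j) := mul_le_mul_of_nonneg_left h4 (by positivity)
        _ = 6 * C * (δ * r ^ j) := by ring
        _ ≤ kap a * A * (δ * r ^ j) := mul_le_mul_of_nonneg_right h5 (by positivity)
    have h8 : A * (δ * r ^ (j+1)) = (A * (δ * r ^ j)) * (1 + 2 * kap a) := by
      rw [← two_kap a, ← hr, pow_succ]
      ring
    rw [h8]
    linarith

/-- The level at which the perturbation is felt. -/
theorem level {a δ : ℝ} (ha0 : 0 < a) (ha : a < 1/2) (hδ : 0 < δ) (hδ1 : 12 * δ ≤ kap a) :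
    ∃ j : ℕ, 6 * (δ * 2 ^ j) ≤ kap a ∧
      (((4 ^ j : ℕ) : ℝ)) ^ (-a) ≤ (12 / kap a) ^ (2 * a) * δ ^ (2 * a) ∧
      (((4 ^ j : ℕ) : ℝ)) * δ ^ 2 ≤ 1 := by
  have hk := kap_pos ha
  have hk2 := kap_le ha0
  obtain ⟨j, h1, h2⟩ := exists_nat_pow_near (x := kap a / (6 * δ)) (y := 2)
    (by rw [one_le_div (by positivity)]; linarith) (by norm_num)
  refine ⟨j, ?_, ?_, ?_⟩
  · rw [le_div_iff₀ (by positivity)] at h1
    linarith
  · rw [four_neg]
    have h3 : kap a / (12 * δ) ≤ 2 ^ j := by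
      rw [div_lt_iff₀ (by positivity), pow_succ] at h2
      rw [div_le_iff₀ (by positivity)]
      linarith
    have h4 : ((2:ℝ) ^ j) ^ (-(2 * a)) ≤ (kap a / (12 * δ)) ^ (-(2 * a)) :=
      Real.rpow_le_rpow_of_nonpos (by positivity) h3 (by linarith)
    refine h4.trans (le_of_eq ?_)
    rw [← Real.mul_rpow (by positivity) hδ.le, Real.rpow_neg (by positivity),
      ← Real.inv_rpow (by positivity)]
    congr 1
    rw [inv_div]
    ring
  · rw [le_div_iff₀ (by positivity)] at h1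
    have h3 : (((4 ^ j : ℕ)) : ℝ) = (2 ^ j) ^ 2 := by
      push_cast
      rw [show (4:ℝ) = 2 ^ 2 by norm_num, ← pow_mul, ← pow_mul, mul_comm]
    rw [h3, ← mul_pow]
    have h4 : 2 ^ j * δ ≤ 1 := by nlinarith [show (0:ℝ) < 2 ^ j by positivity]
    exact pow_le_one₀ (by positivity) h4

/-- the constant of the upper bounds -/
noncomputable def cub (a C : ℝ) : ℝ := (C + (6 * C / kap a + 3)) * (12 / kap a) ^ (2 * a)

theorem cub_pos {a C : ℝ} (ha : a < 1/2) (hC : 0 < C) : 0 < cub a C := by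
  have hk := kap_pos ha
  unfold cub
  positivity

/-- The bounds at this level. -/
theorem at_level (h : Fam N S ex L) {a C : ℝ} (ha0 : 0 < a) (ha : a < 1/2) (hC : 0 < C)
    (htail : ∀ K, 1 ≤ K → K ≤ N → Pr hf S (L K) ≤ C * (K:ℝ) ^ (-a))
    {p : E → ℝ} {δ : ℝ} (hδ0 : 0 < δ) (hp : ∀ e, |p e - 1/2| ≤ δ) {j : ℕ}
    (hj : 4 ^ j ≤ N) (h1 : 6 * (δ * 2 ^ j) ≤ kap a)
    (h2 : (((4 ^ j : ℕ) : ℝ)) ^ (-a) ≤ (12 / kap a) ^ (2 * a) * δ ^ (2 * a)) :
    Pr hf S (L (4 ^ j)) + dst p S (ex (4 ^ j)) ≤ cub a C * δ ^ (2 * a) := by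
  have hk := kap_pos ha
  have hk2 := kap_le ha0
  have h3 := htail (4 ^ j) (Nat.one_le_pow _ _ (by norm_num)) hj
  have h4 := levels h ha0 ha hC htail hδ0.le hp j hj h1
  rw [← four_pow] at h4
  set X := (((4 ^ j : ℕ) : ℝ)) ^ (-a) with hX
  have hX0 : 0 ≤ X := by positivity
  have h5 : (6 * C / kap a + 3) * (δ * (X * 2 ^ j)) ≤ (6 * C / kap a + 3) * X := by
    have h6 : (6 * C / kap a + 3) * (δ * (X * 2 ^ j)) =
        ((6 * C / kap a + 3) * X) * (δ * 2 ^ j) := by ring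
    rw [h6]
    refine mul_le_of_le_one_right (by positivity) (by linarith)
  have h6 : Pr hf S (L (4 ^ j)) + dst p S (ex (4 ^ j)) ≤ (C + (6 * C / kap a + 3)) * X := by
    linarith
  refine h6.trans ?_
  have h7 := mul_le_mul_of_nonneg_left h2 (by positivity : 0 ≤ C + (6 * C / kap a + 3))
  unfold cub
  linarith

end

end Q292.TVY
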